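import Pool.Agent.Y116.ST.Main

/-!
# The Sato–Tate conjecture for even-degree cohomology and systems of bilinear equations
-/

set_option autoImplicit false

open CategoryTheory Limits MonoidalCategory AlgebraicGeometry Pool.Agent.Y116.UV
open Pool.Agent.Y101.Th Pool.Agent.Y101.Th.RX Pool.Agent.Y116.ST

namespace Pool.Agent.Results.MP_32ceeb_nt.BilinearEquations

universe v u

attribute [local instance] Abelian.hasFiniteBiproducts

variable {𝒜 : Type u} [Category.{v} 𝒜] [Abelian 𝒜] [MonoidalCategory 𝒜]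
  {V : 𝒜 ⥤ ModuleCat.{0} ℂ} [V.Monoidal] [V.Additive] {S : Type} [Group S] {T : Data V S}

/-- **The Sato–Tate conjecture and systems of bilinear equations.** -/
theorem result [TopologicalSpace S] [IsTopologicalGroup S] [CompactSpace S] [MeasurableSpace S]
    [BorelSpace S] (μ : MeasureTheory.Measure S) [μ.IsHaarMeasure]
    [MeasureTheory.IsProbabilityMeasure μ] (hT : IsData T) :
    (∀ d : ℕ, List.TFAE [
      ∀ X : Sch ℚ, SmProj X → topologicalKrullDim X.left ≤ d → ∀ n, SatoTatePM μ T (T.tot X n),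
      ∀ N, SatoTatePM μ T (T.M N (d + 3)),
      ∀ n, ∃ N, n ≤ N ∧ SatoTatePM μ T (T.M N (d + 3))]) ∧
    List.TFAE [
      ∀ X : Sch ℚ, SmProj X → ∀ q : ℕ, SatoTate μ T (T.E X ((2 * q : ℕ) : ℤ)),
      ∀ X : Sch ℚ, SmProj X → ∀ n, SatoTatePM μ T (T.tot X n),
      ∀ N, SatoTatePM μ T (T.M N N),
      ∀ n, ∃ N, n ≤ N ∧ SatoTatePM μ T (T.M N N)] ∧
    ((∀ X : Sch ℚ, SmProj X → topologicalKrullDim X.left ≤ (0 : ℕ) → ∀ n,
        SatoTatePM μ T (T.tot X n)) →
      ∀ (a b c : ℕ) (t : Fin a → Fin b → Fin c → ℚ), b ≤ 2 ∨ c ≤ 2 → ∀ n,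
        SatoTatePM μ T (⨁ fun i : Fin n => T.E (bilS t) (i : ℤ))) := by
  refine ⟨fun d => ?_, ?_, fun h a b c t hm n => ?_⟩
  · tfae_have 1 → 2 := by
      intro h N
      obtain ⟨x, hx⟩ := M_fam hT d N
      exact pm_of_pm hT hx (h x.1.1 x.1.2.1 x.1.2.2 x.2)
    tfae_have 2 → 3 := fun h n => ⟨n, le_rfl, h n⟩
    tfae_have 3 → 1 := by
      intro h X hX hXd n
      obtain ⟨N, hN⟩ := tot_dom_M hT d X hX hXd n
      obtain ⟨N', hN', h'⟩ := h N
      exact pm_of_pm hT ((M_mono hN' le_rfl).trans hN) h'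
    tfae_finish
  · tfae_have 1 → 2 := by
      intro h X hX n
      obtain ⟨Z, hZ, hg⟩ := even_degree hT X hX n
      have h1 := h Z hZ n
      have e : ((2 * n : ℕ) : ℤ) = 2 * (n : ℤ) := by push_cast; ring
      rw [e] at h1
      exact pm_of_st hT hg h1
    tfae_have 2 → 3 := by
      intro h N
      obtain ⟨x, hx⟩ := M_fam hT N N
      exact pm_of_pm hT (hx.trans (M_mono le_rfl (by omega))) (h x.1.1 x.1.2.1 x.2)
    tfae_have 3 → 4 := fun h n => ⟨n, le_rfl, h n⟩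
    tfae_have 4 → 1 := by
      intro h X hX q
      obtain ⟨N, hN⟩ := tot_dom_MM hT X hX (2 * q + 1)
      obtain ⟨N', hN', h'⟩ := h N
      refine st_of_pm hT X hX q (pm_of_pm hT (((M_mono hN' hN').trans hN).trans
        (dom_tot_H hT hX _ _ ?_)) h')
      push_cast
      omega
    tfae_finish
  · have := nonempty_SP hT 0
    obtain ⟨x, hx⟩ := dir_big (dir_fam hT 0) (fun i : Fin n => T.E (bilS t) (i : ℤ))
      fun i => bil_fam hT 0 t hm _
    exact pm_of_pm hT hx (h x.1.1 x.1.2.1 x.1.2.2 x.2)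

end Pool.Agent.Results.MP_32ceeb_nt.BilinearEquations
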