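import Pool.Agent.Y722.ST.Lin

/-!
# Effective Sato–Tate moments for almost all members of linear systems of hypersurfaces

`X_c : ∑ c i f i = 0` runs through the members of a linear system of hypersurfaces in `ℙⁿ`, and `T_c` is
the part of the middle cohomology of `X_c`, of degree `i = n - 1`, that varies with `c`.  The trace of
Frobenius at `p` on `T_c((n-1)/2)` is `ntr f u c p = (-1)^{n-1} (#X_c(𝔽_p) - u p) / p^{(n-1)/2}`.  The
`j`-th moment of the trace with respect to the Haar measure of the orthogonal group `O(N)` (`n - 1` even)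
or `USp(N)` (`n - 1` odd), `N ≥ j`, is `gm j`, that is `(j-1)!!` for even `j` and `0` for odd `j`.
-/

set_option autoImplicit false

namespace Pool.Agent.Results.MP_32ceeb_nt.EffectiveStableRange

open Pool.Agent.Y722.HS Pool.Agent.Y722.LS Pool.Agent.Y722.TM Pool.Agent.Y722.TP
  Pool.Agent.Y722.ST

/-- Mean square over the members of height at most `H`: the sums over the primes below `T` of good
reduction of `w p * (trace ^ j - gm j)` are `O(√T log² T)`, where `T ≤ (H/8)^{1/4}` and `j ≤ k` may be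
chosen for every member of the system, so that the bound holds for all `T` and `j` at the same time.  The
constant does not depend on the weights `w`, for instance normalised traces of Frobenius on a fixed
motive. -/
theorem result :
    (∀ (n d : ℕ), 2 ≤ n → 1 ≤ d → ∀ (ι : Type) [Fintype ι] [DecidableEq ι]
      (f : ι → MvPolynomial (Fin (n + 1)) ℤ), (∀ i, (f i).IsHomogeneous d) → ∀ c₀ : ι → ℤ,
      IsSmooth (lform f (fun i => (c₀ i : ℂ))) → ∀ p₀ k : ℕ,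
      (∀ p : ℕ, p.Prime → p₀ ≤ p → SepK (2 * k) f p) → ∀ (u : ℕ → ℝ) (C₀ : ℝ),
      (∀ p : ℕ, p.Prime → p₀ ≤ p → zn f p ≤ C₀ * (p : ℝ) ^ (((n : ℝ) - 1) / 2)) →
      (∀ p : ℕ, p.Prime → p₀ ≤ p →
        |zn f p + ((p : ℝ) ^ n - 1) / ((p : ℝ) - 1) - u p| ≤ C₀ * (p : ℝ) ^ ((n : ℝ) / 2 - 1)) →
      ∃ C : ℝ, ∀ w : ℕ → ℝ, (∀ p, |w p| ≤ 1) → ∀ (H : ℕ) (T j : (ι → ℤ) → ℕ),
        (∀ c, 2 ≤ T c ∧ 8 * T c ^ 4 ≤ H ∧ j c ≤ k) →
        ∑ c ∈ box ι H, dev f u w (j c) c (T c) ^ 2 / (T c * Real.log (T c) ^ 4) ≤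
          C * (box ι H).card) ∧
    ∀ n d k : ℕ, 2 ≤ n → 1 ≤ d → 2 * k ≤ d + 1 →
      ∃ C : ℝ, ∀ w : ℕ → ℝ, (∀ p, |w p| ≤ 1) → ∀ (H : ℕ) (T j : (Mon n d → ℤ) → ℕ),
        (∀ c, 2 ≤ T c ∧ 8 * T c ^ 4 ≤ H ∧ j c ≤ k) →
        ∑ c ∈ box (Mon n d) H, dev (fun μ : Mon n d => monp μ)
          (fun p => ((p : ℝ) ^ n - 1) / ((p : ℝ) - 1)) w (j c) c (T c) ^ 2 /
            (T c * Real.log (T c) ^ 4) ≤ C * (box (Mon n d) H).card :=
  ⟨fun _ _ hn hd _ _ _ f hf c₀ hs p₀ k hsep u C₀ hZ hu =>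
    moments hn hd f hf c₀ hs p₀ k hsep u C₀ hZ hu,
    fun _ _ _ hn hd hk => momentsComplete hn hd hk⟩

end Pool.Agent.Results.MP_32ceeb_nt.EffectiveStableRange
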