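import Pool.Agent.Y798.OG.Tau
import Pool.Agent.Y798.OG.Inst
import Pool.Agent.Y495.FC.Div
import Pool.Agent.Y495.FC.Irr
import Pool.Agent.Y674.FC.C
import Pool.Agent.H70FC.Str
import Pool.Agent.Y37.FC.Taub
import Pool.Agent.Y681.FC.Im
import Pool.Agent.Y960.OG.Alg
import Pool.Agent.Y67.OG.Rig
import Pool.Agent.Y86.OG.Law
import Pool.Agent.Y529.OG.Uniq
import Pool.Agent.Y574.OG.AlgB
import Pool.Agent.Y737.OG.Eq
import Pool.Agent.Y657.OG.D
import Pool.Agent.Y412.OG.Mn
import Pool.Agent.Y629.OG.B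
import Pool.Agent.Y434.OG.Fun2
import Pool.Agent.Y445.OG.Van
import Pool.Agent.Y67.OG.Fl
import Pool.Agent.Y798.OG.Fej
import Pool.Agent.Y798.OG.Joint
import Pool.Agent.Y798.OG.Inst2
import Pool.Agent.Y798.FC.Blk
import Pool.Agent.Y188.FC.Fix
import Pool.Agent.Y448.FC2.Fv
import Pool.Agent.Y484.FC2.Orb
import Pool.Agent.Y968.OG.OneP
import Pool.Agent.Y722.OG.Diff
import Pool.Agent.Y67.OG.TransW
import Pool.Agent.Y67.OG.Det
import Pool.Agent.Y590.OG.Sur
import Pool.Agent.Y309.OG.Cl
import Pool.Agent.Y798.OG.FunW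
import Pool.Agent.Y876.OG.Comp
import Pool.Agent.Y798.OG.MixP

/-!
# Finitely many orders at `s = 1` and the Sato-Tate law for orthogonal groups

`V` is the `i`-th cohomology (`i` even, normalised), or its transcendental part, of a smooth projective variety
over `ℚ`, or over a number field `K`, with Sato-Tate group the full orthogonal group `O(N)`; it is not connected.
The class `x_v` is given by the angles `t_v ∈ (ℝ/ℤ)^N` of its eigenvalues `e(t_{v,1}), …, e(t_{v,N})`,
`e(x) = exp(2πix)`, which are of one of two forms, according to the determinant: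

* `N = 2n`, determinant `1`: `(x_1, …, x_n, -x_1, …, -x_n)`, with the Weyl density of type `D_n`;
* `N = 2n`, determinant `-1`: `(0, y_1, …, y_{n-1}, 1/2, -y_1, …, -y_{n-1})`, with the density of type
  `C_{n-1}`;
* `N = 2n + 1`: `±` an element with the angles `(0, x_1, …, x_n, -x_1, …, -x_n)`, with the density of type
  `B_n`.

`L(k, s)`, for a word `k = (k_1, …, k_r)`, is the Euler product attached to
`Λ^{k_1} V ⊗ ⋯ ⊗ Λ^{k_r} V`.  The known criterion for the Sato-Tate law needs continuous extensions of all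
these functions to `Re s ≥ 1` without zeros and poles (but for the pole from the trivial representation).  Here
it is shown that the orders of finitely many of them at the single point `s = 1`, a list which depends only
on `N`, are enough, up to discretisation of the law on a component, once all the functions have meromorphic
continuations to neighbourhoods of `s = 1`, with zeros and poles of any orders.  There is a form of this at
finite level in which nothing is supposed.  If the determinant is a quadratic character and also the twists by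
Artin representations have continuations, the Sato-Tate law holds jointly with the Frobenius elements in all
finite quotients of the Galois group.
-/

set_option autoImplicit false

namespace Pool.Agent.Results.MP_32ceeb_nt.FiniteOrderCriterion

open NumberField IsDedekindDomain Filter Topology MeasureTheory UnitAddTorus

section

variable {K : Type} [Field K] [NumberField K]

/-- The average of `f` over the primes of `K` of norm at most `B`. -/
noncomputable def avg (f : HeightOneSpectrum (𝓞 K) → ℝ) (B : ℕ) : ℝ :=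
  (∑ᶠ w : {w : HeightOneSpectrum (𝓞 K) // Ideal.absNorm w.asIdeal ≤ B}, f w.1) /
    (Nat.card {w : HeightOneSpectrum (𝓞 K) // Ideal.absNorm w.asIdeal ≤ B} : ℝ)

/-- The Dirichlet average `∑ f(v) q_v^{-1-ε} / ∑ q_v^{-1-ε}` over the primes of `K`. -/
noncomputable def dirichletAvg (f : HeightOneSpectrum (𝓞 K) → ℝ) (ε : ℝ) : ℝ :=
  (∑' v : HeightOneSpectrum (𝓞 K), f v * (Ideal.absNorm v.asIdeal : ℝ) ^ (-(1 + ε))) /
    ∑' v : HeightOneSpectrum (𝓞 K), (Ideal.absNorm v.asIdeal : ℝ) ^ (-(1 + ε))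

/-- `σ` is a Frobenius element at the prime `v` of `K`. -/
def IsFrobenius (v : HeightOneSpectrum (𝓞 K)) (σ : Gal(AlgebraicClosure K/K)) : Prop :=
  ∃ Q : Ideal (𝓞 (AlgebraicClosure K)), Q.IsMaximal ∧
    Q.comap (algebraMap (𝓞 K) (𝓞 (AlgebraicClosure K))) = v.asIdeal ∧
    ∀ z : 𝓞 (AlgebraicClosure K), σ • z - z ^ Ideal.absNorm v.asIdeal ∈ Q

/-- `ψ` is an irreducible Artin representation: it is not zero, only the scalars commute with it, and it is trivial
on an open subgroup. -/
def IsIrredArtin {n : ℕ} (ψ : Gal(AlgebraicClosure K/K) →* Matrix.unitaryGroup (Fin n) ℂ) : Prop :=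
  n ≠ 0 ∧ (∀ A : Matrix (Fin n) (Fin n) ℂ, (∀ g, (ψ g : Matrix (Fin n) (Fin n) ℂ) * A = A * ψ g) →
    ∃ c : ℂ, A = c • (1 : Matrix (Fin n) (Fin n) ℂ)) ∧
  ∃ U : Subgroup Gal(AlgebraicClosure K/K), IsOpen (U : Set Gal(AlgebraicClosure K/K)) ∧
    ∀ u ∈ U, ψ u = 1

end

section

variable {r : ℕ}

/-- Weyl's density `D(x) = ∏_{α ∈ Φ} |1 - e_α(x)|²`, `e_α(x) = e(⟨α, x⟩)`. -/
noncomputable def density (Φ : Finset (Fin r → ℤ)) (x : UnitAddTorus (Fin r)) : ℝ :=
  ∏ α ∈ Φ, ‖1 - mFourier α x‖ ^ 2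

/-- The roots `e_i - e_j`, `e_i + e_j`, `i < j`. -/
def rootsD (r : ℕ) : Finset (Fin r → ℤ) :=
  ((Finset.univ.filter fun p : Fin r × Fin r => p.1 < p.2).image
      fun p => Pi.single p.1 1 - Pi.single p.2 1) ∪
    ((Finset.univ.filter fun p : Fin r × Fin r => p.1 < p.2).image
      fun p => Pi.single p.1 1 + Pi.single p.2 1)

/-- The roots `e_i`, `e_i - e_j`, `e_i + e_j`, `i < j`. -/
def rootsB (r : ℕ) : Finset (Fin r → ℤ) :=
  (Finset.univ.image fun i : Fin r => Pi.single i 1) ∪
    ((Finset.univ.filter fun p : Fin r × Fin r => p.1 < p.2).image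
      fun p => Pi.single p.1 1 - Pi.single p.2 1) ∪
    ((Finset.univ.filter fun p : Fin r × Fin r => p.1 < p.2).image
      fun p => Pi.single p.1 1 + Pi.single p.2 1)

/-- The roots `2e_i`, `e_i - e_j`, `e_i + e_j`, `i < j`. -/
def rootsC (r : ℕ) : Finset (Fin r → ℤ) :=
  (Finset.univ.image fun i : Fin r => Pi.single i 2) ∪
    ((Finset.univ.filter fun p : Fin r × Fin r => p.1 < p.2).image
      fun p => Pi.single p.1 1 - Pi.single p.2 1) ∪
    ((Finset.univ.filter fun p : Fin r × Fin r => p.1 < p.2).image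
      fun p => Pi.single p.1 1 + Pi.single p.2 1)

/-- The signed permutation `(s_1 x_{σ(1)}, …, s_r x_{σ(r)})`. -/
def signedPerm (σ : Equiv.Perm (Fin r)) (s : Fin r → ℤˣ) (x : UnitAddTorus (Fin r)) :
    UnitAddTorus (Fin r) := fun i => (s i : ℤ) • x (σ i)

/-- `A` is a coset of a finite subgroup of the torus, and it is stable under the signed permutations. -/
structure IsGrid (A : Finset (UnitAddTorus (Fin r))) : Prop where
  nonempty : A.Nonempty
  coset : ∀ x ∈ A, ∀ y ∈ A, ∀ z ∈ A, x - y + z ∈ A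
  stable : ∀ (σ : Equiv.Perm (Fin r)) (s : Fin r → ℤˣ), ∀ x ∈ A, signedPerm σ s x ∈ A

/-- A component of `O(N)`: its classes are given by the points `x` of a torus of dimension `rank`, the angles
of the eigenvalues are `angles x`, and the Haar measure, of total mass `1` on the component, is
`factor (2^rank rank!)⁻¹ D(x) dx`, `D` the density of the `roots`. -/
structure Component (N : ℕ) where
  rank : ℕ
  angles : UnitAddTorus (Fin rank) → UnitAddTorus (Fin N)
  roots : Finset (Fin rank → ℤ)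
  factor : ℝ

/-- `SO(2m+2)`. -/
noncomputable def evenPlus (m : ℕ) : Component (m + 1 + (m + 1)) where
  rank := m + 1
  angles := fun x => (Fin.append x (-x) : Fin (m + 1 + (m + 1)) → UnitAddCircle)
  roots := rootsD (m + 1)
  factor := 2

/-- The component of `O(2m+2)` of the elements of determinant `-1`. -/
noncomputable def evenMinus (m : ℕ) : Component (m + 1 + (m + 1)) where
  rank := m
  angles := fun y => (Fin.append (Fin.cons 0 y : Fin (m + 1) → UnitAddCircle)
    (Fin.cons (((1 / 2 : ℝ) : UnitAddCircle)) (-y) : Fin (m + 1) → UnitAddCircle) :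
      Fin (m + 1 + (m + 1)) → UnitAddCircle)
  roots := rootsC m
  factor := 1

/-- `SO(2m+1)`. -/
noncomputable def oddPlus (m : ℕ) : Component (m + m + 1) where
  rank := m
  angles := fun x => (Fin.cons 0 (Fin.append x (-x) : Fin (m + m) → UnitAddCircle) :
    Fin (m + m + 1) → UnitAddCircle)
  roots := rootsB m
  factor := 1

/-- The component `-SO(2m+1)` of `O(2m+1)`. -/
noncomputable def oddMinus (m : ℕ) : Component (m + m + 1) where
  rank := m
  angles := fun x j => (Fin.cons 0 (Fin.append x (-x) : Fin (m + m) → UnitAddCircle) :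
    Fin (m + m + 1) → UnitAddCircle) j + ((1 / 2 : ℝ) : UnitAddCircle)
  roots := rootsB m
  factor := 1

/-- `C₁` and `C₂` are the two components of `O(N)`. -/
inductive IsOrthogonal : (N : ℕ) → Component N → Component N → Prop
  | even (m : ℕ) : IsOrthogonal (m + 1 + (m + 1)) (evenPlus m) (evenMinus m)
  | odd (m : ℕ) : IsOrthogonal (m + m + 1) (oddPlus m) (oddMinus m)

end

section

variable {N : ℕ}

/-- The mean value over the component of a class function, for the Haar measure. -/
noncomputable def Component.mean (C : Component N) (f : UnitAddTorus (Fin N) → ℝ) : ℝ :=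
  C.factor * ((2 ^ C.rank * C.rank.factorial : ℝ)⁻¹ *
    ∫ x, f (C.angles x) * density C.roots x
      ∂(Measure.pi fun _ : Fin C.rank => AddCircle.haarAddCircle))

/-- The discretised mean value over the component. -/
noncomputable def Component.gridMean (C : Component N) (A : Finset (UnitAddTorus (Fin C.rank)))
    (f : UnitAddTorus (Fin N) → ℝ) : ℝ :=
  C.factor * ((2 ^ C.rank * C.rank.factorial : ℝ)⁻¹ *
    ((A.card : ℝ)⁻¹ * ∑ x ∈ A, f (C.angles x) * density C.roots x))

/-- `L` is the mean value for the Haar measure of the component or one of its discretisations. -/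
def Component.IsLaw (C : Component N) (L : (UnitAddTorus (Fin N) → ℝ) → ℝ) : Prop :=
  L = C.mean ∨ ∃ A : Finset (UnitAddTorus (Fin C.rank)), IsGrid A ∧ L = C.gridMean A

variable (C₁ C₂ : Component N)

/-- The mean value of a class function for the Haar measure of `O(N)` (Weyl's integration formula). -/
noncomputable def satoTate (f : UnitAddTorus (Fin N) → ℝ) : ℝ := (C₁.mean f + C₂.mean f) / 2

/-- `L` is the Sato-Tate law, or it is discretised on one of the components, or on both of them. -/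
def IsLaw (L : (UnitAddTorus (Fin N) → ℝ) → ℝ) : Prop :=
  ∃ L₁ L₂ : (UnitAddTorus (Fin N) → ℝ) → ℝ, C₁.IsLaw L₁ ∧ C₂.IsLaw L₂ ∧
    L = fun f => (L₁ f + L₂ f) / 2

/-- `f` is a class function: it does not depend on the order of the eigenvalues. -/
def IsClassFunction (f : UnitAddTorus (Fin N) → ℝ) : Prop :=
  ∀ (σ : Equiv.Perm (Fin N)) (z : UnitAddTorus (Fin N)), f (fun j => z (σ j)) = f z

/-- The trace on `Λ^{k_1} V ⊗ ⋯ ⊗ Λ^{k_r} V` of the class with the eigenvalues `e(z_1), …, e(z_N)`. -/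
noncomputable def wordTrace {r : ℕ} (k : Fin r → ℕ) (z : UnitAddTorus (Fin N)) : ℂ :=
  ∏ j, ∑ S ∈ Finset.powersetCard (k j) (Finset.univ : Finset (Fin N)), ∏ i ∈ S, fourier 1 (z i)

/-- The multiplicity of the trivial representation of `O(N)` in `Λ^{k_1} V ⊗ ⋯ ⊗ Λ^{k_r} V`: the order of
the pole of `L(k, s)` at `s = 1` which belongs to the Sato-Tate law. -/
noncomputable def multiplicity {r : ℕ} (k : Fin r → ℕ) : ℝ :=
  satoTate C₁ C₂ fun z => (wordTrace k z).re

/-- `log |L(1 + ε)| / log(1/ε)`; if `L` has a meromorphic continuation with a pole of order `m` at `s = 1`,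
this tends to `m`. -/
noncomputable def size (L : ℂ → ℂ) (ε : ℝ) : ℝ :=
  Real.log ‖L (1 + ε)‖ / Real.log (1 / ε)

/-- `L`, given for `Re s > 1`, has a meromorphic continuation to a neighbourhood of `s₀`. -/
def ContinuesTo (L : ℂ → ℂ) (s₀ : ℂ) : Prop :=
  ∃ Λ : ℂ → ℂ, MeromorphicAt Λ s₀ ∧ ∀ᶠ s in 𝓝 s₀, 1 < s.re → Λ s = L s

/-- `L` has a meromorphic continuation to a neighbourhood of `s₀`, with a pole of order `m` at `s₀` (a zero
of order `-m` if `m < 0`). -/
def HasPole (L : ℂ → ℂ) (s₀ : ℂ) (m : ℤ) : Prop :=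
  ∃ Λ : ℂ → ℂ, MeromorphicAt Λ s₀ ∧ (∀ᶠ s in 𝓝 s₀, 1 < s.re → Λ s = L s) ∧
    meromorphicOrderAt Λ s₀ = ((-m : ℤ) : WithTop ℤ)

variable {K : Type} [Field K] [NumberField K]
  (t : HeightOneSpectrum (𝓞 K) → UnitAddTorus (Fin N))

/-- The Euler product
`L(k, s) = ∏_v det(1 - Frob_v q_v^{-s} | Λ^{k_1} V ⊗ ⋯ ⊗ Λ^{k_r} V)⁻¹`; the factor at `v` is the
product over all families `S = (S_1, …, S_r)` of sets `S_j` of `k_j` eigenvalues. -/
noncomputable def LWord {r : ℕ} (k : Fin r → ℕ) (s : ℂ) : ℂ :=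
  ∏' v : HeightOneSpectrum (𝓞 K), (∏ S ∈ Fintype.piFinset fun j => Finset.powersetCard (k j)
    (Finset.univ : Finset (Fin N)),
      (1 - (∏ j, ∏ i ∈ S j, fourier 1 (t v i)) * (Ideal.absNorm v.asIdeal : ℂ) ^ (-s)))⁻¹

/-- The `t_v` are angles of orthogonal matrices. -/
def AreClasses : Prop := ∀ v, t v ∈ Set.range C₁.angles ∪ Set.range C₂.angles

/-- For the words `k` of length at most `R` the order of the pole of `L(k, s)` at `s = 1` is the multiplicity of
the trivial representation. -/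
def RightOrders (R : ℕ) : Prop :=
  ∀ (r : ℕ) (k : Fin r → ℕ), r ≤ R → (∀ j, k j ≤ N) →
    ∃ m : ℤ, (m : ℝ) = multiplicity C₁ C₂ k ∧ HasPole (LWord t k) 1 m

open Classical in
/-- The classes in the component `C`, of positive rank, accumulate at the classes of finite order: for some
`n > 0` the distance `‖n t_v‖` of `n t_v` to the origin, for `t_v` in `C`, tends to `0` in the mean. -/
def AlmostTorsion (C : Component N) : Prop :=
  0 < C.rank ∧ ∃ n : ℕ, 0 < n ∧ Tendsto
    (dirichletAvg fun v => if t v ∈ Set.range C.angles then ‖n • t v‖ else 0) (𝓝[>] 0) (𝓝 0)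

/-- The `t_v` have the law `L` in the sense of Dirichlet density. -/
def DirichletLaw (L : (UnitAddTorus (Fin N) → ℝ) → ℝ) : Prop :=
  ∀ f : UnitAddTorus (Fin N) → ℝ, Continuous f → IsClassFunction f →
    Tendsto (dirichletAvg fun v => f (t v)) (𝓝[>] 0) (𝓝 (L f))

/-- The `t_v` have the law `L` in the sense of natural density. -/
def NaturalLaw (L : (UnitAddTorus (Fin N) → ℝ) → ℝ) : Prop :=
  ∀ f : UnitAddTorus (Fin N) → ℝ, Continuous f → IsClassFunction f →
    Tendsto (avg fun v => f (t v)) atTop (𝓝 (L f))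

variable (σ : HeightOneSpectrum (𝓞 K) → Gal(AlgebraicClosure K/K))
  (χ : Gal(AlgebraicClosure K/K) →* ℤˣ)

/-- The `t_v` are angles of orthogonal matrices, with the determinants `χ(σ_v)`, for Frobenius elements `σ_v`
and a quadratic character `χ` of the Galois group which is not trivial. -/
structure HasDeterminant : Prop where
  frobenius : ∀ v, IsFrobenius v (σ v)
  nontrivial : ∃ g, χ g ≠ 1
  isOpen_ker : IsOpen (χ.ker : Set Gal(AlgebraicClosure K/K))
  plus : ∀ v, χ (σ v) = 1 → t v ∈ Set.range C₁.angles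
  minus : ∀ v, χ (σ v) ≠ 1 → t v ∈ Set.range C₂.angles

/-- The twist `∏_v ∏_S det(1 - e(∑_j ∑_{i ∈ S_j} t_{v,i}) q_v^{-s} ψ(σ_v))⁻¹` of `L(k, s)`. -/
noncomputable def LTwist {n : ℕ}
    (ψ : Gal(AlgebraicClosure K/K) →* Matrix.unitaryGroup (Fin n) ℂ) {r : ℕ} (k : Fin r → ℕ)
    (s : ℂ) : ℂ :=
  ∏' v : HeightOneSpectrum (𝓞 K), (∏ S ∈ Fintype.piFinset fun j => Finset.powersetCard (k j)
    (Finset.univ : Finset (Fin N)),
      Matrix.det (1 - ((Ideal.absNorm v.asIdeal : ℂ) ^ (-s) *
        ∏ j, ∏ i ∈ S j, fourier 1 (t v i)) • (ψ (σ v) : Matrix (Fin n) (Fin n) ℂ)))⁻¹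

/-- The `L(k, s)` and their twists by irreducible Artin representations which are not trivial have meromorphic
continuations to neighbourhoods of the points `1 + iτ`, with zeros and poles of any orders. -/
structure HasContinuations : Prop where
  word : ∀ (r : ℕ) (k : Fin r → ℕ), (∀ j, k j ≤ N) → ∀ τ : ℝ,
    ContinuesTo (LWord t k) (1 + τ * Complex.I)
  twist : ∀ (n : ℕ) (ψ : Gal(AlgebraicClosure K/K) →* Matrix.unitaryGroup (Fin n) ℂ),
    IsIrredArtin ψ → (∃ g, ψ g ≠ 1) → ∀ (r : ℕ) (k : Fin r → ℕ), (∀ j, k j ≤ N) → ∀ τ : ℝ,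
      ContinuesTo (LTwist t σ ψ k) (1 + τ * Complex.I)

/-- The joint law of the classes and the Frobenius elements in the finite quotients `Q` of the Galois group
over which `χ` is defined, in the sense of natural density: the Haar measure of the group of the pairs
`(x, q)` in `O(N) × Q` with `det x = χ(q)`. -/
def JointLaw : Prop :=
  ∀ (U : Subgroup Gal(AlgebraicClosure K/K)) [U.Normal],
    IsOpen (U : Set Gal(AlgebraicClosure K/K)) → ∀ (hU : U ≤ χ.ker)
    (f : UnitAddTorus (Fin N) → ℝ) (e : Gal(AlgebraicClosure K/K) ⧸ U → ℝ), Continuous f →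
      IsClassFunction f → (∀ g h, e (h * g * h⁻¹) = e g) →
      Tendsto (avg fun v => f (t v) * e (QuotientGroup.mk (σ v))) atTop
        (𝓝 ((Nat.card (Gal(AlgebraicClosure K/K) ⧸ U) : ℝ)⁻¹ * ∑ᶠ q, e q *
          if QuotientGroup.lift U χ hU q = 1 then C₁.mean f else C₂.mean f))

end

section Bridge

set_option linter.unusedSectionVars false

open Pool.Agent.Y798.FC Pool.Agent.Y798.OG Pool.Agent.TH553.ST Pool.Agent.TH553.RS
  Pool.Agent.W540.BE
open Pool.Agent.Y139.ID (good_ev chiW es ev wordFun annih IsHaarOn continuous_chiW SD)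

theorem avg_eq {K : Type} [Field K] [NumberField K] (f : HeightOneSpectrum (𝓞 K) → ℝ) :
    avg f = mn f := by
  funext N
  have hs : ∀ v, v ∈ upto K N ↔ Ideal.absNorm v.asIdeal ≤ N := fun v => mem_upto
  let e : {v : HeightOneSpectrum (𝓞 K) // Ideal.absNorm v.asIdeal ≤ N} ≃ (upto K N) :=
    Equiv.subtypeEquivRight fun v => (hs v).symm
  have hfin : Finite {v : HeightOneSpectrum (𝓞 K) // Ideal.absNorm v.asIdeal ≤ N} :=
    Finite.of_equiv _ e.symm
  unfold avg mn
  have h1 : (∑ᶠ v : {v : HeightOneSpectrum (𝓞 K) // Ideal.absNorm v.asIdeal ≤ N}, f v.1) =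
      ∑ v ∈ upto K N, f v := by
    rw [← Finset.sum_coe_sort, ← finsum_eq_sum_of_fintype, ← finsum_comp_equiv e]
    rfl
  have h2 : Nat.card {v : HeightOneSpectrum (𝓞 K) // Ideal.absNorm v.asIdeal ≤ N} =
      (upto K N).card := by
    rw [Nat.card_congr e, Nat.card_eq_fintype_card, Fintype.card_coe]
  rw [h1, h2, smul_eq_mul, div_eq_inv_mul]

theorem card_W (g : ℕ) : (Nat.card (sympW g) : ℝ) = 2 ^ g * g.factorial := by
  rw [Pool.Agent.Y674.FC.card_W]
  push_cast
  ring

theorem exists_act {g : ℕ} (σ : Equiv.Perm (Fin g)) (s : Fin g → ℤˣ) :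
    ∃ w ∈ sympW g, ∀ x, act w x = signedPerm σ s x := by
  refine ⟨Pool.Agent.Y674.FC.mk σ⁻¹ (fun j => s (σ⁻¹ j)), ⟨σ⁻¹, fun j => s (σ⁻¹ j), fun x j =>
    Pool.Agent.Y674.FC.mk_apply _ _ _ _⟩, fun x => ?_⟩
  funext j
  rw [Pool.Agent.Y674.FC.act_eq (fun x j => Pool.Agent.Y674.FC.mk_apply _ _ _ _)]
  simp [signedPerm]

variable {N : ℕ}

/-- the component in the sense of this file -/
noncomputable def toC (p : Part N) : Component N where
  rank := p.r
  angles := p.emb
  roots := p.Φ
  factor := 2 / p.κ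

theorem mean_toC (p : Part N) (f : UnitAddTorus (Fin N) → ℝ) :
    (toC p).mean f = 2 * ((p.κ : ℝ)⁻¹ * ((Nat.card (sympW p.r) : ℝ)⁻¹ *
      ∫ x, f (p.emb x) * dens p.Φ x ∂(vol (Fin p.r)))) := by
  rw [card_W, ← mul_assoc, ← div_eq_mul_inv]
  rfl

theorem law_of_adm (p : Part N) {Γ : AddSubgroup (Fin p.r → ℤ)} {a : UnitAddTorus (Fin p.r)}
    (h : Adm p.r Γ a) :
    ∃ (L : (UnitAddTorus (Fin N) → ℝ) → ℝ) (σ : Measure (UnitAddTorus (Fin p.r))),
      (toC p).IsLaw L ∧ (Γ = ⊥ → L = (toC p).mean) ∧ IsHaarOn (annih Γ) σ ∧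
      ∀ f : UnitAddTorus (Fin N) → ℝ, Continuous f →
        (p.κ : ℝ)⁻¹ * cosetMean (sympW p.r) p.Φ σ a (fun x => f (p.emb x)) = L f / 2 := by
  obtain ⟨h1, h2, h3⟩ := h
  by_cases h0 : Γ = ⊥
  · subst h0
    refine ⟨(toC p).mean, vol (Fin p.r), Or.inl rfl, fun _ => rfl, haar_top, fun f hf => ?_⟩
    have hfc : Continuous fun x => f (p.emb x) := hf.comp p.cemb
    rw [cosetMean_bot _ _ _ hfc, mean_toC]
    ring
  · obtain ⟨n, hn, hΓ⟩ := h1.resolve_left h0
    obtain ⟨A, σ, hσ, k1, k2, k3, k4⟩ := exists_grid (Φ := p.Φ) hn hΓ h3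
    refine ⟨(toC p).gridMean A, σ, Or.inr ⟨A, ⟨⟨a, k1⟩, k2, fun τ s x hx => ?_⟩, rfl⟩,
      fun h => absurd h h0, hσ, fun f hf => ?_⟩
    · obtain ⟨w, hw, hact⟩ := exists_act τ s
      rw [← hact]
      exact k3 w hw x hx
    · have hfc : Continuous fun x => f (p.emb x) := hf.comp p.cemb
      have e1 := k4 _ hfc
      have e2 : (toC p).gridMean A f = (2 / (p.κ : ℝ)) * ((2 ^ p.r * p.r.factorial : ℝ)⁻¹ *
        ((A.card : ℝ)⁻¹ * ∑ x ∈ A, f (p.emb x) * dens p.Φ x)) := rfl
      have e3 : gridM (sympW p.r) p.Φ A (fun x => f (p.emb x)) = (2 ^ p.r * p.r.factorial : ℝ)⁻¹ *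
        ((A.card : ℝ)⁻¹ * ∑ x ∈ A, f (p.emb x) * dens p.Φ x) := by
        unfold gridM
        rw [card_W]
      refine (congrArg (fun z => (p.κ : ℝ)⁻¹ * z) (e1.trans e3)).trans ?_
      refine Eq.trans ?_ (congrArg (fun z => z / 2) e2).symm
      ring

variable (P : Bool → Part N)

theorem cm_eq (σ : ∀ i, Measure (UnitAddTorus (Fin (P i).r)))
    (a : ∀ i, UnitAddTorus (Fin (P i).r)) (f : UnitAddTorus (Fin N) → ℝ) :
    cm P σ a f =
      ((P true).κ : ℝ)⁻¹ * cosetMean (sympW (P true).r) (P true).Φ (σ true) (a true)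
        (fun x => f ((P true).emb x)) +
      ((P false).κ : ℝ)⁻¹ * cosetMean (sympW (P false).r) (P false).Φ (σ false) (a false)
        (fun x => f ((P false).emb x)) := by
  unfold cm
  rw [Fintype.sum_bool]

theorem mult_eq {r : ℕ} (k : Fin r → ℕ) :
    ((multiplicity (toC (P true)) (toC (P false)) k : ℝ) : ℂ) = hm P (chiW k) := by
  have hre : ∀ i x, (((chiW k ((P i).emb x)).re : ℝ) : ℂ) = chiW k ((P i).emb x) := fun i x =>
    Pool.Agent.Y139.ID.re_chiW k ((P i).sd x)
  have h1 : multiplicity (toC (P true)) (toC (P false)) k =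
      ((toC (P true)).mean (fun z => (chiW k z).re) +
        (toC (P false)).mean fun z => (chiW k z).re) / 2 := rfl
  have h2 : ∀ i, ∫ x, chiW k ((P i).emb x) * (dens (P i).Φ x : ℂ) ∂(vol (Fin (P i).r)) =
      ((∫ x, (chiW k ((P i).emb x)).re * dens (P i).Φ x ∂(vol (Fin (P i).r)) : ℝ) : ℂ) := by
    intro i
    rw [← integral_complex_ofReal]
    refine integral_congr_ae (Eventually.of_forall fun x => ?_)
    simp only
    rw [Complex.ofReal_mul, hre]
  unfold hm
  rw [Fintype.sum_bool, h2, h2, h1, mean_toC, mean_toC]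
  push_cast
  rw [mul_inv, mul_inv]
  ring

theorem mult_re {r : ℕ} (k : Fin r → ℕ) :
    multiplicity (toC (P true)) (toC (P false)) k = (hm P (chiW k)).re := by
  rw [← mult_eq, Complex.ofReal_re]

theorem classes_iff {K : Type} [Field K] [NumberField K]
    {t : HeightOneSpectrum (𝓞 K) → UnitAddTorus (Fin N)} :
    AreClasses (toC (P true)) (toC (P false)) t ↔ ∀ v, t v ∈ classes P := by
  refine forall_congr' fun v => ?_
  unfold classes
  rw [Set.mem_iUnion, Bool.exists_bool]
  change (t v ∈ Set.range (P true).emb ∨ t v ∈ Set.range (P false).emb) ↔ _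
  exact Or.comm

theorem orders_iff {K : Type} [Field K] [NumberField K]
    {t : HeightOneSpectrum (𝓞 K) → UnitAddTorus (Fin N)} (R : ℕ) :
    RightOrders (toC (P true)) (toC (P false)) t R ↔
      ∀ (r : ℕ) (k : Fin r → ℕ), r ≤ R → (∀ j, k j ≤ N) →
        ∃ m : ℤ, (m : ℂ) = hm P (chiW k) ∧ PoleAt (wordLT t k) 1 m := by
  unfold RightOrders
  refine forall₂_congr fun r k => forall₂_congr fun _ _ => exists_congr fun m => ?_
  rw [← mult_eq]
  refine and_congr ?_ Iff.rfl
  constructor
  · intro h1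
    rw [← h1]
    simp
  · intro h1
    exact_mod_cast h1

/-- multiples of classes of finite order -/
def Tor : Prop := ∀ i (n : ℕ) (x : UnitAddTorus (Fin (P i).r)), (2 * n) • x = 0 →
  (2 * n) • (P i).emb x = 0

/-- not all classes have order `n` -/
def NT : Prop := ∀ i, 0 < (P i).r → ∀ n : ℕ, 0 < n → ∃ x, n • (P i).emb x ≠ 0

theorem span_sy {G : UnitAddTorus (Fin N) → ℂ} (hG : G ∈ Submodule.span ℤ (wordFun N)) : Sy G := by
  induction hG using Submodule.span_induction with
  | mem f hf =>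
    obtain ⟨r, k, -, rfl⟩ := hf
    exact chiW_sy k
  | zero => exact fun _ _ => rfl
  | add f g _ _ hf hg =>
    intro σ x
    simp only [Pi.add_apply]
    rw [hf σ x, hg σ x]
  | smul a f _ hf =>
    intro σ x
    simp only [Pi.smul_apply]
    rw [hf σ x]

variable {P}

/-- the mean of `‖n z‖` over a component as a class function -/
theorem exists_tors (hC : StmC) (halg : Alg P) (i : Bool) (n : ℕ) :
    ∃ F : UnitAddTorus (Fin N) → ℝ, Continuous F ∧ Sy F ∧
      (∀ x, F ((P i).emb x) = ‖n • (P i).emb x‖) ∧ ∀ j, j ≠ i → ∀ x, F ((P j).emb x) = 0 := by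
  obtain ⟨G, hG, h1, h2⟩ := halg i 0
  have hfin := (hC (P i).r).fin
  have hcard : (Nat.card (sympW (P i).r) : ℝ) ≠ 0 := by
    have : Nat.card (sympW (P i).r) ≠ 0 := Nat.card_pos.ne'
    exact_mod_cast this
  have hκ : ((P i).κ : ℝ) ≠ 0 := by
    have := (P i).κ_pos.ne'
    exact_mod_cast this
  have hGc : Continuous G := Pool.Agent.Y139.ID.continuous_span hG
  refine ⟨fun z => ((((P i).κ : ℝ) * (Nat.card (sympW (P i).r) : ℝ))⁻¹ * (G z).re) * ‖n • z‖,
    ?_, fun σ z => ?_, fun x => ?_, fun j hj x => ?_⟩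
  · exact (continuous_const.mul (Complex.continuous_re.comp hGc)).mul
      (continuous_const_smul n).norm
  · have e : ‖n • fun j => z (σ j)‖ = ‖n • z‖ := by
      refine le_antisymm ?_ ?_
      · refine (pi_norm_le_iff_of_nonneg (norm_nonneg _)).2 fun i => ?_
        exact norm_le_pi_norm (n • z) (σ i)
      · refine (pi_norm_le_iff_of_nonneg (norm_nonneg _)).2 fun i => ?_
        have := norm_le_pi_norm (n • fun j => z (σ j)) (σ⁻¹ i)
        simpa using this
    simp only
    rw [span_sy hG σ z, e]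
  · simp only
    rw [h1, orb_zero' _ hfin]
    have e : ((((P i).κ : ℕ) : ℂ) * ((Nat.card (sympW (P i).r) : ℕ) : ℂ)).re =
        ((P i).κ : ℝ) * (Nat.card (sympW (P i).r) : ℝ) := by
      rw [← Nat.cast_mul, Complex.natCast_re]
      push_cast
      rfl
    rw [e, inv_mul_cancel₀ (mul_ne_zero hκ hcard), one_mul]
  · simp only
    rw [h2 j hj]
    simp

theorem tors_eq {K : Type} [Field K] [NumberField K]
    {t : HeightOneSpectrum (𝓞 K) → UnitAddTorus (Fin N)} (ht : ∀ v, t v ∈ classes P)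
    {i : Bool} {n : ℕ} {F : UnitAddTorus (Fin N) → ℝ}
    (h1 : ∀ x, F ((P i).emb x) = ‖n • (P i).emb x‖)
    (h2 : ∀ j, j ≠ i → ∀ x, F ((P j).emb x) = 0) (v : HeightOneSpectrum (𝓞 K)) :
    F (t v) = open Classical in
      if t v ∈ Set.range (P i).emb then ‖n • t v‖ else 0 := by
  classical
  by_cases h : t v ∈ Set.range (P i).emb
  · rw [if_pos h]
    obtain ⟨x, hx⟩ := h
    rw [← hx, h1]
  · rw [if_neg h]
    obtain ⟨j, hj⟩ := Set.mem_iUnion.1 (ht v)
    have hji : j ≠ i := fun e => h (e ▸ hj)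
    obtain ⟨x, hx⟩ := hj
    rw [← hx, h2 j hji]

theorem mean_tors_zero {i : Bool} {Γ : AddSubgroup (Fin (P i).r → ℤ)}
    {a : UnitAddTorus (Fin (P i).r)} (h : Adm (P i).r Γ a) {n : ℕ}
    (hΓ : ∀ μ : Fin (P i).r → ℤ, n • μ ∈ Γ) {σ : Measure (UnitAddTorus (Fin (P i).r))}
    (hσ : IsHaarOn (annih Γ) σ) (htor : Tor P) {F : UnitAddTorus (Fin N) → ℝ}
    (h1 : ∀ x, F ((P i).emb x) = ‖(2 * n) • (P i).emb x‖) :
    cosetMean (sympW (P i).r) (P i).Φ σ a (fun x => F ((P i).emb x)) = 0 := by
  have hae : ∀ᵐ x ∂σ, x ∈ annih Γ := by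
    rw [ae_iff]
    exact hσ.supp
  have mF_nsmul : ∀ (μ : Fin (P i).r → ℤ) (n : ℕ) (x : UnitAddTorus (Fin (P i).r)),
      mFourier μ (n • x) = mFourier (n • μ) x := by
    intro μ n x
    rw [mFourier_nsmul]
    induction n with
    | zero =>
      rw [zero_smul, pow_zero]
      simp [mFourier]
    | succ n ih => rw [succ_nsmul, Pool.Agent.Y139.ID.mFourier_apply_add, ih, pow_succ]
  unfold cosetMean
  have h3 : ∫ x, F ((P i).emb (a + x)) * dens (P i).Φ (a + x) ∂σ = 0 := by
    refine integral_eq_zero_of_ae ?_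
    filter_upwards [hae] with x hx
    have h2 : (2 * n) • (a + x) = 0 := by
      refine ext_mF fun μ => ?_
      have h3 := Pool.Agent.Y139.ID.mem_annih.1 hx _ (hΓ μ)
      have h4 := h.2.1 _ (hΓ μ)
      have h5 : mFourier μ (0 : UnitAddTorus (Fin (P i).r)) = 1 := by simp [mFourier]
      rw [h5, mul_comm, mul_smul, mF_nsmul, smul_add, Pool.Agent.Y139.ID.mFourier_apply_add,
        mF_nsmul, mF_nsmul, mFourier_nsmul 2, mFourier_nsmul 2, h3]
      rcases h4 with h4 | h4 <;> rw [h4] <;> norm_num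
    rw [h1, htor i n _ h2]
    simp
  rw [h3, mul_zero]

theorem mean_tors_pos (hnt : NT P) {i : Bool} (hr : 0 < (P i).r) {n : ℕ} (hn : 0 < n)
    {F : UnitAddTorus (Fin N) → ℝ} (h1 : ∀ x, F ((P i).emb x) = ‖n • (P i).emb x‖) :
    0 < (toC (P i)).mean F := by
  have hκ : (0 : ℝ) < (P i).κ := by exact_mod_cast (P i).κ_pos
  have hcard : (0 : ℝ) < (Nat.card (sympW (P i).r) : ℝ) := by
    rw [card_W]
    positivity
  have hc : Continuous fun x : UnitAddTorus (Fin (P i).r) => ‖n • (P i).emb x‖ :=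
    ((continuous_const_smul n).comp (P i).cemb).norm
  have hcd := continuous_dens (P i).Φ
  have h2 : 0 < ∫ x, F ((P i).emb x) * dens (P i).Φ x ∂(vol (Fin (P i).r)) := by
    simp only [h1]
    have hnn : ∀ x : UnitAddTorus (Fin (P i).r), 0 ≤ ‖n • (P i).emb x‖ * dens (P i).Φ x :=
      fun x => mul_nonneg (norm_nonneg _) (dens_nonneg _ _)
    refine lt_of_le_of_ne (integral_nonneg hnn) fun h0 => ?_
    have h3 := (integral_eq_zero_iff_of_nonneg hnn
      (Pool.Agent.Y139.ID.integrable_cont_real _ (hc.mul hcd))).1 h0.symm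
    have h4 : ∀ᵐ x ∂(vol (Fin (P i).r)), ‖n • (P i).emb x‖ = 0 := by
      filter_upwards [h3, null_dens (P i).ne_zero] with x hx hd
      rcases mul_eq_zero.1 hx with h | h
      · exact h
      · exact absurd h hd.ne'
    have h5 : (fun x : UnitAddTorus (Fin (P i).r) => ‖n • (P i).emb x‖) = fun _ => 0 :=
      Continuous.ae_eq_iff_eq (vol (Fin (P i).r)) hc continuous_const |>.1 h4
    obtain ⟨x, hx⟩ := hnt i hr n hn
    exact hx (norm_eq_zero.1 (congrFun h5 x))
  rw [mean_toC]
  positivity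

theorem mean_zero {i : Bool} {F : UnitAddTorus (Fin N) → ℝ} (h2 : ∀ x, F ((P i).emb x) = 0) :
    (toC (P i)).mean F = 0 := by
  rw [mean_toC]
  simp [h2]

theorem nat_dir {K : Type} [Field K] [NumberField K]
    {t : HeightOneSpectrum (𝓞 K) → UnitAddTorus (Fin N)} {L : (UnitAddTorus (Fin N) → ℝ) → ℝ}
    (h : NaturalLaw t L) : DirichletLaw t L := by
  intro f hf hfc
  have h1 := h f hf hfc
  rw [avg_eq] at h1
  obtain ⟨C, hC⟩ := isCompact_univ.exists_bound_of_continuousOn (f := f) hf.continuousOn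
  have h2 := cE_of_mn_real (t := fun v => f (t v)) (B := C) (fun v => hC _ (Set.mem_univ _))
    (c := L f) (by
      refine ((Complex.continuous_ofReal.tendsto _).comp h1).congr fun n => ?_
      simp only [Function.comp]
      unfold mn
      simp [smul_eq_mul])
  exact avg_of_cE (fun v => hC _ (Set.mem_univ _)) h2

/-- the orders from the law -/
theorem orders_of_dir (him : StmIm) {K : Type} [Field K] [NumberField K]
    {t : HeightOneSpectrum (𝓞 K) → UnitAddTorus (Fin N)} (ht : ∀ v, t v ∈ classes P)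
    (h : DirichletLaw t (satoTate (toC (P true)) (toC (P false))))
    (hcont : ∀ (r : ℕ) (k : Fin r → ℕ), (∀ j, k j ≤ N) → ContAt (wordLT t k) 1) (R : ℕ) :
    RightOrders (toC (P true)) (toC (P false)) t R := by
  intro r k _ hk
  obtain ⟨m, h1, h2⟩ := wordT_mean_one him (hcont r k hk)
  refine ⟨m, ?_, h1⟩
  have hcre : Continuous fun z : UnitAddTorus (Fin N) => (chiW k z).re :=
    Complex.continuous_re.comp (continuous_chiW k)
  have h3 : Tendsto (Pool.Agent.Y139.ID.avg fun v => (chiW k (t v)).re) (𝓝[>] 0)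
      (𝓝 (satoTate (toC (P true)) (toC (P false)) fun z => (wordTrace k z).re)) :=
    h (fun z => (chiW k z).re) hcre (fun σ z => by
      simp only
      rw [chiW_sy k σ z])
  have h4 := (Complex.continuous_re.tendsto _).comp h2
  obtain ⟨C, hC⟩ := isCompact_univ.exists_bound_of_continuousOn
    (f := (chiW k : UnitAddTorus (Fin N) → ℂ)) (continuous_chiW k).continuousOn
  have h5 : Tendsto (Pool.Agent.Y139.ID.avg fun v => (chiW k (t v)).re) (𝓝[>] 0)
      (𝓝 ((m : ℂ)).re) := by
    refine h4.congr' ?_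
    filter_upwards [good_ev (K := K)] with ε hε
    simp only [Function.comp]
    rw [cE_re hε (B := C) (fun v => hC _ (Set.mem_univ _))]
  have h6 := tendsto_nhds_unique h5 h3
  rw [Complex.intCast_re] at h6
  exact h6

/-- no concentration from the law -/
theorem not_torsion_of_dir (hC : StmC) (halg : Alg P) (hnt : NT P) {K : Type} [Field K]
    [NumberField K] {t : HeightOneSpectrum (𝓞 K) → UnitAddTorus (Fin N)}
    (ht : ∀ v, t v ∈ classes P)
    (h : DirichletLaw t (satoTate (toC (P true)) (toC (P false)))) (i : Bool) :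
    ¬ AlmostTorsion t (toC (P i)) := by
  rintro ⟨hr, n, hn, h0⟩
  obtain ⟨F, hF1, hF2, hF3, hF4⟩ := exists_tors hC halg i n
  have h1 := h F hF1 hF2
  have h2 : (fun v => F (t v)) = fun v => open Classical in
      if t v ∈ Set.range (toC (P i)).angles then ‖n • t v‖ else 0 := by
    funext v
    exact tors_eq ht hF3 hF4 v
  rw [h2] at h1
  have h3 := tendsto_nhds_unique h1 h0
  have h4 := mean_tors_pos hnt hr hn hF3
  unfold satoTate at h3
  cases i with
  | true =>
    have h5 : (toC (P false)).mean F = 0 := mean_zero (hF4 false (by simp))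
    rw [h5] at h3
    linarith
  | false =>
    have h5 : (toC (P true)).mean F = 0 := mean_zero (hF4 true (by simp))
    rw [h5] at h3
    linarith

theorem isLaw_of (C₁ C₂ : Component N) {L₁ L₂ : (UnitAddTorus (Fin N) → ℝ) → ℝ}
    (h1 : C₁.IsLaw L₁) (h2 : C₂.IsLaw L₂) : IsLaw C₁ C₂ fun f => (L₁ f + L₂ f) / 2 :=
  ⟨L₁, L₂, h1, h2, rfl⟩

/-- the choice of the laws for admissible cosets -/
theorem laws_of_adm (hC : StmC) (htor : Tor P)
    {Γ : ∀ i, AddSubgroup (Fin (P i).r → ℤ)} {a : ∀ i, UnitAddTorus (Fin (P i).r)}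
    (h : ∀ i, Adm (P i).r (Γ i) (a i)) :
    ∃ (L : (UnitAddTorus (Fin N) → ℝ) → ℝ) (σ : ∀ i, Measure (UnitAddTorus (Fin (P i).r))),
      IsLaw (toC (P true)) (toC (P false)) L ∧ (∀ i, IsHaarOn (annih (Γ i)) (σ i)) ∧
      (∀ f : UnitAddTorus (Fin N) → ℝ, Continuous f → cm P σ a f = L f) ∧
      (L = satoTate (toC (P true)) (toC (P false)) ∨ ∃ i, 0 < (P i).r ∧ ∃ n : ℕ, 0 < n ∧
        ∀ F : UnitAddTorus (Fin N) → ℝ, Continuous F →
          (∀ x, F ((P i).emb x) = ‖n • (P i).emb x‖) →
          (∀ j, j ≠ i → ∀ x, F ((P j).emb x) = 0) → L F = 0) := by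
  obtain ⟨L1, σ1, k1, k2, k3, k4⟩ := law_of_adm (P true) (h true)
  obtain ⟨L2, σ2, l1, l2, l3, l4⟩ := law_of_adm (P false) (h false)
  let σ : ∀ i, Measure (UnitAddTorus (Fin (P i).r)) := fun i =>
    match i with
    | true => σ1
    | false => σ2
  have hσ : ∀ i, IsHaarOn (annih (Γ i)) (σ i) := fun i => by
    cases i with
    | true => exact k3
    | false => exact l3
  have hcm : ∀ f : UnitAddTorus (Fin N) → ℝ, Continuous f →
      cm P σ a f = (L1 f + L2 f) / 2 := by
    intro f hf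
    rw [cm_eq]
    change ((P true).κ : ℝ)⁻¹ * cosetMean (sympW (P true).r) (P true).Φ σ1 (a true)
        (fun x => f ((P true).emb x)) +
      ((P false).κ : ℝ)⁻¹ * cosetMean (sympW (P false).r) (P false).Φ σ2 (a false)
        (fun x => f ((P false).emb x)) = _
    rw [k4 f hf, l4 f hf]
    ring
  refine ⟨fun f => (L1 f + L2 f) / 2, σ, isLaw_of _ _ k1 l1, hσ, hcm, ?_⟩
  by_cases hall : ∀ i, Γ i = ⊥
  · left
    rw [k2 (hall true), l2 (hall false)]
    rfl
  · right
    push Not at hall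
    obtain ⟨i, hi⟩ := hall
    obtain ⟨n, hn, hΓ⟩ := (h i).1.resolve_left hi
    refine ⟨i, ?_, 2 * n, by omega, fun F hF h1 h2 => ?_⟩
    · rcases Nat.eq_zero_or_pos (P i).r with h0 | h0
      · exfalso
        apply hi
        have hs : Subsingleton (Fin (P i).r → ℤ) := by
          rw [h0]
          infer_instance
        exact AddSubgroup.eq_bot_of_subsingleton _
      · exact h0
    · change (L1 F + L2 F) / 2 = 0
      rw [← hcm F hF]
      unfold cm
      refine Finset.sum_eq_zero fun j _ => ?_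
      by_cases hj : j = i
      · subst hj
        rw [mean_tors_zero (h j) hΓ (hσ j) htor h1, mul_zero]
      · have e : cosetMean (sympW (P j).r) (P j).Φ (σ j) (a j) (fun x => F ((P j).emb x)) = 0 := by
          unfold cosetMean
          simp [h2 j hj]
        rw [e, mul_zero]

theorem torsion_of_law (hC : StmC) (halg : Alg P) {K : Type} [Field K]
    [NumberField K] {t : HeightOneSpectrum (𝓞 K) → UnitAddTorus (Fin N)}
    (ht : ∀ v, t v ∈ classes P) {L : (UnitAddTorus (Fin N) → ℝ) → ℝ} (hL : DirichletLaw t L)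
    {i : Bool} (hr : 0 < (P i).r) {n : ℕ} (hn : 0 < n)
    (h : ∀ F : UnitAddTorus (Fin N) → ℝ, Continuous F →
      (∀ x, F ((P i).emb x) = ‖n • (P i).emb x‖) →
      (∀ j, j ≠ i → ∀ x, F ((P j).emb x) = 0) → L F = 0) : AlmostTorsion t (toC (P i)) := by
  obtain ⟨F, hF1, hF2, hF3, hF4⟩ := exists_tors hC halg i n
  refine ⟨hr, n, hn, ?_⟩
  have h1 := hL F hF1 hF2
  rw [h F hF1 hF3 hF4] at h1
  have h2 : (fun v => F (t v)) = fun v => open Classical in
      if t v ∈ Set.range (toC (P i)).angles then ‖n • t v‖ else 0 := by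
    funext v
    exact tors_eq ht hF3 hF4 v
  rwa [h2] at h1

/-- the theorem for a pair of components -/
theorem generic (him : StmIm) (htaub : StmTaub) (hC : StmC) (hlawS : StmLaw) (huniq : StmUniq)
    (hvan : StmVan) (hmn : StmMn) (hfl : StmFL) (halg : Alg P) (htor : Tor P) (hnt : NT P) :
    ∃ R : ℕ,
      (∀ (m : ℕ) (f : Fin m → UnitAddTorus (Fin N) → ℝ), (∀ i, Continuous (f i)) →
        (∀ i, IsClassFunction (f i)) → ∀ δ : ℝ, 0 < δ →
        ∃ (η : ℝ) (R' : ℕ), 0 < η ∧ ∀ (K : Type) [Field K] [NumberField K]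
          (t : HeightOneSpectrum (𝓞 K) → UnitAddTorus (Fin N)),
          AreClasses (toC (P true)) (toC (P false)) t → ∀ᶠ ε : ℝ in 𝓝[>] 0,
            (∃ (r : ℕ) (k : Fin r → ℕ), r ≤ R' ∧ (∀ j, k j ≤ N) ∧
              ∀ n : ℤ, η < |size (LWord t k) ε - n|) ∨
            (∃ (r : ℕ) (k : Fin r → ℕ), r ≤ R ∧ (∀ j, k j ≤ N) ∧
              η < |size (LWord t k) ε - multiplicity (toC (P true)) (toC (P false)) k|) ∨
            ∃ L : (UnitAddTorus (Fin N) → ℝ) → ℝ, IsLaw (toC (P true)) (toC (P false)) L ∧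
              ∀ i, |dirichletAvg (fun v => f i (t v)) ε - L (f i)| ≤ δ) ∧
      ∀ (K : Type) [Field K] [NumberField K]
        (t : HeightOneSpectrum (𝓞 K) → UnitAddTorus (Fin N)),
        AreClasses (toC (P true)) (toC (P false)) t →
        (∀ (r : ℕ) (k : Fin r → ℕ), (∀ j, k j ≤ N) → ContinuesTo (LWord t k) 1) →
        (RightOrders (toC (P true)) (toC (P false)) t R →
          ∃ L : (UnitAddTorus (Fin N) → ℝ) → ℝ, IsLaw (toC (P true)) (toC (P false)) L ∧
            (L = satoTate (toC (P true)) (toC (P false)) ∨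
              AlmostTorsion t (toC (P true)) ∨ AlmostTorsion t (toC (P false))) ∧
            DirichletLaw t L ∧
            ((∀ (r : ℕ) (k : Fin r → ℕ), (∀ j, k j ≤ N) → ∀ τ : ℝ,
              ContinuesTo (LWord t k) (1 + τ * Complex.I)) → NaturalLaw t L)) ∧
        (DirichletLaw t (satoTate (toC (P true)) (toC (P false))) ↔
          RightOrders (toC (P true)) (toC (P false)) t R ∧
            ¬ AlmostTorsion t (toC (P true)) ∧ ¬ AlmostTorsion t (toC (P false))) := by
  obtain ⟨R, hlaw, hR⟩ := mainP him htaub hC hlawS huniq hvan hmn halg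
  refine ⟨R, fun m f hf hfc δ hδ => ?_, fun K _ _ t htc hcont => ?_⟩
  · obtain ⟨η, R', hη, hmain⟩ := hfl N Bool P R hlaw m f hf hfc δ hδ
    refine ⟨η, R', hη, fun K _ _ t htc => ?_⟩
    filter_upwards [hmain K t ((classes_iff P).1 htc)] with ε hε
    rcases hε with h | h | ⟨Γ, a, hadm, h⟩
    · exact Or.inl h
    · right
      left
      obtain ⟨r, k, h1, h2, h3⟩ := h
      refine ⟨r, k, h1, h2, ?_⟩
      rw [mult_re]
      exact h3
    · right
      right
      obtain ⟨L, σ, hL, hσ, hcm, -⟩ := laws_of_adm hC htor hadm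
      refine ⟨L, hL, fun i => ?_⟩
      rw [← hcm (f i) (hf i)]
      exact h σ hσ i
  · have ht := (classes_iff P).1 htc
    have hA : RightOrders (toC (P true)) (toC (P false)) t R →
          ∃ L : (UnitAddTorus (Fin N) → ℝ) → ℝ, IsLaw (toC (P true)) (toC (P false)) L ∧
            (L = satoTate (toC (P true)) (toC (P false)) ∨
              AlmostTorsion t (toC (P true)) ∨ AlmostTorsion t (toC (P false))) ∧
            DirichletLaw t L ∧
            ((∀ (r : ℕ) (k : Fin r → ℕ), (∀ j, k j ≤ N) → ∀ τ : ℝ,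
              ContinuesTo (LWord t k) (1 + τ * Complex.I)) → NaturalLaw t L) := by
      intro hord
      obtain ⟨Γ, a, hadm, hmain⟩ := hR K t ht hcont ((orders_iff P R).1 hord)
      obtain ⟨L, σ, hL, hσ, hcm, hdich⟩ := laws_of_adm hC htor hadm
      have hdir : DirichletLaw t L := fun f hf hfc => by
        rw [← hcm f hf]
        exact (hmain σ hσ f hf hfc).1
      refine ⟨L, hL, ?_, hdir, fun hline f hf hfc => ?_⟩
      · rcases hdich with h | ⟨i, hr, n, hn, h⟩
        · exact Or.inl h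
        · right
          have h1 := torsion_of_law hC halg ht hdir hr hn h
          cases i with
          | true => exact Or.inl h1
          | false => exact Or.inr h1
      · rw [← hcm f hf, avg_eq]
        exact (hmain σ hσ f hf hfc).2 hline
    refine ⟨hA, fun h => ⟨orders_of_dir him ht h hcont R, not_torsion_of_dir hC halg hnt ht h true,
      not_torsion_of_dir hC halg hnt ht h false⟩, fun ⟨h1, h2, h3⟩ => ?_⟩
    obtain ⟨L, -, h4, h5, -⟩ := hA h1
    rcases h4 with h4 | h4 | h4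
    · rwa [h4] at h5
    · exact absurd h4 h2
    · exact absurd h4 h3

theorem final (him : StmIm) (htaub : StmTaub) (hC : StmC) (hlawS : StmLaw) (huniq : StmUniq)
    (hvan : StmVan) (hmn : StmMn) (hfl : StmFL) (halg : Alg P) (htor : Tor P) (hnt : NT P)
    {C₁ C₂ : Component N} (e1 : C₁ = toC (P true)) (e2 : C₂ = toC (P false)) :
    ∃ R : ℕ,
      (∀ (m : ℕ) (f : Fin m → UnitAddTorus (Fin N) → ℝ), (∀ i, Continuous (f i)) →
        (∀ i, IsClassFunction (f i)) → ∀ δ : ℝ, 0 < δ →
        ∃ (η : ℝ) (R' : ℕ), 0 < η ∧ ∀ (K : Type) [Field K] [NumberField K]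
          (t : HeightOneSpectrum (𝓞 K) → UnitAddTorus (Fin N)), AreClasses C₁ C₂ t →
          ∀ᶠ ε : ℝ in 𝓝[>] 0,
            (∃ (r : ℕ) (k : Fin r → ℕ), r ≤ R' ∧ (∀ j, k j ≤ N) ∧
              ∀ n : ℤ, η < |size (LWord t k) ε - n|) ∨
            (∃ (r : ℕ) (k : Fin r → ℕ), r ≤ R ∧ (∀ j, k j ≤ N) ∧
              η < |size (LWord t k) ε - multiplicity C₁ C₂ k|) ∨
            ∃ L : (UnitAddTorus (Fin N) → ℝ) → ℝ, IsLaw C₁ C₂ L ∧
              ∀ i, |dirichletAvg (fun v => f i (t v)) ε - L (f i)| ≤ δ) ∧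
      ∀ (K : Type) [Field K] [NumberField K]
        (t : HeightOneSpectrum (𝓞 K) → UnitAddTorus (Fin N)), AreClasses C₁ C₂ t →
        (∀ (r : ℕ) (k : Fin r → ℕ), (∀ j, k j ≤ N) → ContinuesTo (LWord t k) 1) →
        (RightOrders C₁ C₂ t R →
          ∃ L : (UnitAddTorus (Fin N) → ℝ) → ℝ, IsLaw C₁ C₂ L ∧ DirichletLaw t L ∧
            ((∀ (r : ℕ) (k : Fin r → ℕ), (∀ j, k j ≤ N) → ∀ τ : ℝ,
              ContinuesTo (LWord t k) (1 + τ * Complex.I)) → NaturalLaw t L)) ∧
        (DirichletLaw t (satoTate C₁ C₂) ↔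
          RightOrders C₁ C₂ t R ∧ ¬ AlmostTorsion t C₁ ∧ ¬ AlmostTorsion t C₂) ∧
        ((∀ (r : ℕ) (k : Fin r → ℕ), (∀ j, k j ≤ N) → ∀ τ : ℝ,
            ContinuesTo (LWord t k) (1 + τ * Complex.I)) →
          (NaturalLaw t (satoTate C₁ C₂) ↔
            RightOrders C₁ C₂ t R ∧ ¬ AlmostTorsion t C₁ ∧ ¬ AlmostTorsion t C₂)) := by
  subst e1 e2
  obtain ⟨R, h1, h2⟩ := generic him htaub hC hlawS huniq hvan hmn hfl halg htor hnt
  refine ⟨R, h1, fun K _ _ t htc hcont => ?_⟩
  obtain ⟨hA, hB⟩ := h2 K t htc hcont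
  refine ⟨fun h => ?_, hB, fun hline => ⟨fun hn => hB.1 (nat_dir hn), fun h => ?_⟩⟩
  · obtain ⟨L, k1, -, k2, k3⟩ := hA h
    exact ⟨L, k1, k2, k3⟩
  · obtain ⟨L, -, k1, -, k3⟩ := hA h.1
    rcases k1 with k1 | k1 | k1
    · have := k3 hline
      rwa [k1] at this
    · exact absurd k1 h.2.1
    · exact absurd k1 h.2.2

theorem words_of_nat {K : Type} [Field K] [NumberField K]
    {t : HeightOneSpectrum (𝓞 K) → UnitAddTorus (Fin N)} (ht : ∀ v, t v ∈ classes P)
    (h : NaturalLaw t (satoTate (toC (P true)) (toC (P false)))) {r : ℕ} (k : Fin r → ℕ) :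
    Tendsto (mn fun v => chiW k (t v)) atTop (𝓝 (hm P (chiW k))) := by
  have hcre : Continuous fun z : UnitAddTorus (Fin N) => (chiW k z).re :=
    Complex.continuous_re.comp (continuous_chiW k)
  have h1 := h (fun z => (chiW k z).re) hcre (fun σ z => by
    simp only
    rw [chiW_sy k σ z])
  rw [avg_eq] at h1
  have h2 := (Complex.continuous_ofReal.tendsto _).comp h1
  rw [← mult_eq]
  refine h2.congr fun n => ?_
  have h3 : (fun v => chiW k (t v)) = fun v => (((chiW k (t v)).re : ℝ) : ℂ) := by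
    funext v
    obtain ⟨i, hi⟩ := Set.mem_iUnion.1 (ht v)
    obtain ⟨x, hx⟩ := hi
    rw [← hx]
    exact (Pool.Agent.Y139.ID.re_chiW k ((P i).sd x)).symm
  rw [h3]
  simp only [Function.comp]
  unfold mn
  simp [smul_eq_mul]

theorem mean_complex (p : Part N) (f : UnitAddTorus (Fin N) → ℝ) :
    2 * (((p.κ : ℂ) * (Nat.card (sympW p.r) : ℂ))⁻¹ *
      ∫ x, ((f (p.emb x) : ℝ) : ℂ) * (dens p.Φ x : ℂ) ∂(vol (Fin p.r))) =
      (((toC p).mean f : ℝ) : ℂ) := by
  have h : ∫ x, ((f (p.emb x) : ℝ) : ℂ) * (dens p.Φ x : ℂ) ∂(vol (Fin p.r)) =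
      ((∫ x, f (p.emb x) * dens p.Φ x ∂(vol (Fin p.r)) : ℝ) : ℂ) := by
    rw [← integral_complex_ofReal]
    refine integral_congr_ae (Eventually.of_forall fun x => ?_)
    simp only
    rw [Complex.ofReal_mul]
  rw [h, mean_toC]
  push_cast
  rw [mul_inv]
  ring

theorem joint_of_nat (hone : StmOneP) (hblk : StmBlk) (hmix : StmMixP) (halg : Alg P)
    (hsur : Sur P) (hdet : Det P) (hmass : Mass P) {K : Type} [Field K] [NumberField K]
    {t : HeightOneSpectrum (𝓞 K) → UnitAddTorus (Fin N)}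
    {σ : HeightOneSpectrum (𝓞 K) → Gal(AlgebraicClosure K/K)}
    {χ : Gal(AlgebraicClosure K/K) →* ℤˣ}
    (hd : HasDeterminant (toC (P true)) (toC (P false)) t σ χ) (ht : ∀ v, t v ∈ classes P)
    (hcont : HasContinuations t σ)
    (h : NaturalLaw t (satoTate (toC (P true)) (toC (P false)))) :
    JointLaw (toC (P true)) (toC (P false)) t σ χ := by
  intro U _ hU hUχ f e hf hfc he
  have hfin : Finite (Gal(AlgebraicClosure K/K) ⧸ U) := Subgroup.quotient_finite_of_isOpen _ hU
  have hdetσ : ∀ v, es N (t v) = ((χ (σ v) : ℤ) : ℂ) := fun v => by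
    by_cases h1 : χ (σ v) = 1
    · obtain ⟨x, hx⟩ := hd.plus v h1
      rw [h1, ← hx]
      change es N ((P true).emb x) = _
      rw [hdet.1]
      simp
    · obtain ⟨x, hx⟩ := hd.minus v h1
      rw [(Int.units_eq_one_or (χ (σ v))).resolve_left h1, ← hx]
      change es N ((P false).emb x) = _
      rw [hdet.2]
      simp
  have h1 := joint_word hone hblk hmix halg hsur hdet hmass ht hd.frobenius hd.nontrivial hdetσ
    (fun n ψ hn hs hnt hV r k hk τ => hcont.twist n ψ ⟨hn, hs, hV⟩ hnt r k hk τ)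
    (fun r k _ => words_of_nat ht h k) hU hUχ (f := fun x => (f x : ℂ))
    (Complex.continuous_ofReal.comp hf) (fun τ x => by
      simp only
      rw [hfc τ x]) (e := fun q => (e q : ℂ)) (fun g k => by rw [he])
  rw [mean_complex, mean_complex] at h1
  have h2 := (Complex.continuous_re.tendsto _).comp h1
  have h3 : ((Nat.card (Gal(AlgebraicClosure K/K) ⧸ U) : ℂ)⁻¹ * ∑ᶠ q, (e q : ℂ) *
      (if QuotientGroup.lift U χ hUχ q = 1 then (((toC (P true)).mean f : ℝ) : ℂ)
        else (((toC (P false)).mean f : ℝ) : ℂ))).re =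
      (Nat.card (Gal(AlgebraicClosure K/K) ⧸ U) : ℝ)⁻¹ * ∑ᶠ q, e q *
        if QuotientGroup.lift U χ hUχ q = 1 then (toC (P true)).mean f
          else (toC (P false)).mean f := by
    letI := Fintype.ofFinite (Gal(AlgebraicClosure K/K) ⧸ U)
    have h4 : ∀ q : Gal(AlgebraicClosure K/K) ⧸ U, (e q : ℂ) *
        (if QuotientGroup.lift U χ hUχ q = 1 then (((toC (P true)).mean f : ℝ) : ℂ)
          else (((toC (P false)).mean f : ℝ) : ℂ)) =
        ((e q * (if QuotientGroup.lift U χ hUχ q = 1 then (toC (P true)).mean f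
          else (toC (P false)).mean f) : ℝ) : ℂ) := fun q => by
      split_ifs <;> push_cast <;> rfl
    rw [finsum_congr h4, finsum_eq_sum_of_fintype, finsum_eq_sum_of_fintype,
      ← Complex.ofReal_sum, ← Complex.ofReal_natCast, ← Complex.ofReal_inv,
      ← Complex.ofReal_mul, Complex.ofReal_re]
  rw [h3] at h2
  rw [avg_eq]
  refine h2.congr fun n => ?_
  simp only [Function.comp]
  rw [re_mn]
  congr 1
  funext v
  rw [← Complex.ofReal_mul, Complex.ofReal_re]

theorem nat_of_joint {C₁ C₂ : Component N} {K : Type} [Field K] [NumberField K]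
    {t : HeightOneSpectrum (𝓞 K) → UnitAddTorus (Fin N)}
    {σ : HeightOneSpectrum (𝓞 K) → Gal(AlgebraicClosure K/K)}
    {χ : Gal(AlgebraicClosure K/K) →* ℤˣ} (hd : HasDeterminant C₁ C₂ t σ χ)
    (h : JointLaw C₁ C₂ t σ χ) : NaturalLaw t (satoTate C₁ C₂) := by
  intro f hf hfc
  have h1 := h χ.ker hd.isOpen_ker le_rfl f (fun _ => 1) hf hfc (fun _ _ => rfl)
  have hsurj : Function.Surjective χ := fun u => by
    rcases Int.units_eq_one_or u with rfl | rfl
    · exact ⟨1, map_one _⟩
    · obtain ⟨g, hg⟩ := hd.nontrivial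
      exact ⟨g, (Int.units_eq_one_or (χ g)).resolve_left hg⟩
  let E := QuotientGroup.quotientKerEquivOfSurjective χ hsurj
  have hE : ∀ q, QuotientGroup.lift χ.ker χ le_rfl q = E q := fun q => by
    obtain ⟨g, rfl⟩ := QuotientGroup.mk_surjective q
    rfl
  have hcard : (Nat.card (Gal(AlgebraicClosure K/K) ⧸ χ.ker) : ℝ) = 2 := by
    rw [Nat.card_congr E.toEquiv, Nat.card_eq_fintype_card, Fintype.card_units_int]
    norm_num
  have hsum : (∑ᶠ q : Gal(AlgebraicClosure K/K) ⧸ χ.ker, (1 : ℝ) *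
      if QuotientGroup.lift χ.ker χ le_rfl q = 1 then C₁.mean f else C₂.mean f) =
      C₁.mean f + C₂.mean f := by
    have h2 : ∀ q : Gal(AlgebraicClosure K/K) ⧸ χ.ker, ((1 : ℝ) *
        if QuotientGroup.lift χ.ker χ le_rfl q = 1 then C₁.mean f else C₂.mean f) =
        (fun u : ℤˣ => if u = 1 then C₁.mean f else C₂.mean f) (E.toEquiv q) := fun q => by
      rw [one_mul, hE]
      rfl
    rw [finsum_congr h2, finsum_comp_equiv (f := fun u : ℤˣ =>
      if u = 1 then C₁.mean f else C₂.mean f) E.toEquiv, finsum_eq_sum_of_fintype, UnitsInt.univ,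
      Finset.sum_pair (by decide), if_pos rfl, if_neg (by decide)]
  rw [hcard, hsum] at h1
  unfold satoTate
  have h3 : (2 : ℝ)⁻¹ * (C₁.mean f + C₂.mean f) = (C₁.mean f + C₂.mean f) / 2 := by ring
  rw [h3] at h1
  simpa only [mul_one] using h1

theorem classes_of_det {C₁ C₂ : Component N} {K : Type} [Field K] [NumberField K]
    {t : HeightOneSpectrum (𝓞 K) → UnitAddTorus (Fin N)}
    {σ : HeightOneSpectrum (𝓞 K) → Gal(AlgebraicClosure K/K)}
    {χ : Gal(AlgebraicClosure K/K) →* ℤˣ} (hd : HasDeterminant C₁ C₂ t σ χ) :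
    AreClasses C₁ C₂ t := fun v => by
  by_cases h : χ (σ v) = 1
  · exact Or.inl (hd.plus v h)
  · exact Or.inr (hd.minus v h)

theorem final2 (him : StmIm) (htaub : StmTaub) (hC : StmC) (hlawS : StmLaw) (huniq : StmUniq)
    (hvan : StmVan) (hmn : StmMn) (hfl : StmFL) (halg : Alg P) (htor : Tor P) (hnt : NT P)
    (hone : StmOneP) (hblk : StmBlk) (hmix : StmMixP) (hsur : Sur P) (hdet : Det P)
    (hmass : Mass P) {C₁ C₂ : Component N} (e1 : C₁ = toC (P true)) (e2 : C₂ = toC (P false)) :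
    ∃ R : ℕ,
      (∀ (m : ℕ) (f : Fin m → UnitAddTorus (Fin N) → ℝ), (∀ i, Continuous (f i)) →
        (∀ i, IsClassFunction (f i)) → ∀ δ : ℝ, 0 < δ →
        ∃ (η : ℝ) (R' : ℕ), 0 < η ∧ ∀ (K : Type) [Field K] [NumberField K]
          (t : HeightOneSpectrum (𝓞 K) → UnitAddTorus (Fin N)), AreClasses C₁ C₂ t →
          ∀ᶠ ε : ℝ in 𝓝[>] 0,
            (∃ (r : ℕ) (k : Fin r → ℕ), r ≤ R' ∧ (∀ j, k j ≤ N) ∧
              ∀ n : ℤ, η < |size (LWord t k) ε - n|) ∨
            (∃ (r : ℕ) (k : Fin r → ℕ), r ≤ R ∧ (∀ j, k j ≤ N) ∧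
              η < |size (LWord t k) ε - multiplicity C₁ C₂ k|) ∨
            ∃ L : (UnitAddTorus (Fin N) → ℝ) → ℝ, IsLaw C₁ C₂ L ∧
              ∀ i, |dirichletAvg (fun v => f i (t v)) ε - L (f i)| ≤ δ) ∧
      (∀ (K : Type) [Field K] [NumberField K]
        (t : HeightOneSpectrum (𝓞 K) → UnitAddTorus (Fin N)), AreClasses C₁ C₂ t →
        (∀ (r : ℕ) (k : Fin r → ℕ), (∀ j, k j ≤ N) → ContinuesTo (LWord t k) 1) →
        (RightOrders C₁ C₂ t R →
          ∃ L : (UnitAddTorus (Fin N) → ℝ) → ℝ, IsLaw C₁ C₂ L ∧ DirichletLaw t L ∧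
            ((∀ (r : ℕ) (k : Fin r → ℕ), (∀ j, k j ≤ N) → ∀ τ : ℝ,
              ContinuesTo (LWord t k) (1 + τ * Complex.I)) → NaturalLaw t L)) ∧
        (DirichletLaw t (satoTate C₁ C₂) ↔
          RightOrders C₁ C₂ t R ∧ ¬ AlmostTorsion t C₁ ∧ ¬ AlmostTorsion t C₂) ∧
        ((∀ (r : ℕ) (k : Fin r → ℕ), (∀ j, k j ≤ N) → ∀ τ : ℝ,
            ContinuesTo (LWord t k) (1 + τ * Complex.I)) →
          (NaturalLaw t (satoTate C₁ C₂) ↔
            RightOrders C₁ C₂ t R ∧ ¬ AlmostTorsion t C₁ ∧ ¬ AlmostTorsion t C₂))) ∧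
      ∀ (K : Type) [Field K] [NumberField K]
        (t : HeightOneSpectrum (𝓞 K) → UnitAddTorus (Fin N))
        (σ : HeightOneSpectrum (𝓞 K) → Gal(AlgebraicClosure K/K))
        (χ : Gal(AlgebraicClosure K/K) →* ℤˣ), HasDeterminant C₁ C₂ t σ χ →
        HasContinuations t σ →
        [RightOrders C₁ C₂ t R ∧ ¬ AlmostTorsion t C₁ ∧ ¬ AlmostTorsion t C₂,
          DirichletLaw t (satoTate C₁ C₂),
          NaturalLaw t (satoTate C₁ C₂),
          JointLaw C₁ C₂ t σ χ].TFAE := by
  obtain ⟨R, h1, h2⟩ := final him htaub hC hlawS huniq hvan hmn hfl halg htor hnt e1 e2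
  refine ⟨R, h1, h2, fun K _ _ t σ χ hd hcont => ?_⟩
  have htc := classes_of_det hd
  obtain ⟨-, hB, hN⟩ := h2 K t htc fun r k hk => by
    have := hcont.word r k hk 0
    simpa using this
  have hN' := hN hcont.word
  tfae_have 1 ↔ 2 := hB.symm
  tfae_have 1 ↔ 3 := hN'.symm
  tfae_have 4 → 3 := nat_of_joint hd
  tfae_have 3 → 4 := by
    intro h
    subst e1 e2
    exact joint_of_nat hone hblk hmix halg hsur hdet hmass hd ((classes_iff P).1 htc) hcont h
  tfae_finish

theorem half_ne {n : ℕ} (hn : 0 < n) :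
    n • (((1 / (2 * n) : ℝ)) : UnitAddCircle) ≠ 0 := by
  rw [← AddCircle.coe_nsmul]
  intro h
  rw [AddCircle.coe_eq_zero_iff] at h
  obtain ⟨k, hk⟩ := h
  have hn' : (n : ℝ) ≠ 0 := by exact_mod_cast hn.ne'
  rw [nsmul_eq_mul, zsmul_eq_mul, mul_one] at hk
  have h1 : (n : ℝ) * (1 / (2 * n)) = 1 / 2 := by field_simp
  rw [h1] at hk
  have h2 : (2 * k : ℝ) = 1 := by linarith
  have h3 : (2 * k : ℤ) = 1 := by exact_mod_cast h2
  omega

theorem two_half (n : ℕ) : (2 * n) • (((1 / 2 : ℝ)) : UnitAddCircle) = 0 := by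
  rw [mul_comm, mul_smul, two_nsmul, half_add_half', smul_zero]

theorem tor_pos {m : ℕ} (n : ℕ) (x : UnitAddTorus (Fin (m + 1))) (hx : (2 * n) • x = 0)
    (j : Fin ((m + 1) + (m + 1))) : (2 * n) • pos x j = 0 := by
  have hx' : ∀ j, (2 * n) • x j = 0 := fun j => congrFun hx j
  refine Fin.addCases (fun i => ?_) (fun i => ?_) j
  · simp only [pos, Fin.append_left]
    exact hx' i
  · simp only [pos, Fin.append_right, Pi.neg_apply, smul_neg]
    rw [hx' i, neg_zero]

theorem tor_neg {m : ℕ} (n : ℕ) (x : UnitAddTorus (Fin m)) (hx : (2 * n) • x = 0)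
    (j : Fin ((m + 1) + (m + 1))) : (2 * n) • neg x j = 0 := by
  have hx' : ∀ j, (2 * n) • x j = 0 := fun j => congrFun hx j
  refine Fin.addCases (fun i => ?_) (fun i => ?_) j
  · simp only [neg, Fin.append_left]
    refine Fin.cases ?_ (fun i => ?_) i
    · simp only [Fin.cons_zero, smul_zero]
    · simp only [Fin.cons_succ]
      exact hx' i
  · simp only [neg, Fin.append_right]
    refine Fin.cases ?_ (fun i => ?_) i
    · simp only [Fin.cons_zero]
      exact two_half n
    · simp only [Fin.cons_succ, Pi.neg_apply, smul_neg]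
      rw [hx' i, neg_zero]

theorem tor_even (hC : StmC) (hD : StmD) (hE : StmEq) (m : ℕ) : Tor (evenP hC hD hE m) := by
  intro i n x hx
  cases i with
  | true =>
    change (2 * n) • pos x = 0
    funext j
    exact tor_pos n x hx j
  | false =>
    change (2 * n) • neg x = 0
    funext j
    exact tor_neg n x hx j

theorem tor_posO {m : ℕ} (n : ℕ) (x : UnitAddTorus (Fin m)) (hx : (2 * n) • x = 0)
    (j : Fin (m + m + 1)) : (2 * n) • posO x j = 0 := by
  have hx' : ∀ j, (2 * n) • x j = 0 := fun j => congrFun hx j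
  refine Fin.cases ?_ (fun i => ?_) j
  · simp only [posO, Fin.cons_zero, smul_zero]
  · simp only [posO, Fin.cons_succ]
    refine Fin.addCases (fun i => ?_) (fun i => ?_) i
    · simp only [Fin.append_left]
      exact hx' i
    · simp only [Fin.append_right, Pi.neg_apply, smul_neg]
      rw [hx' i, neg_zero]

theorem tor_odd (hB : StmB) (hE : StmEq) (m : ℕ) : Tor (oddP hB hE m) := by
  intro i n x hx
  cases i with
  | true =>
    change (2 * n) • posO x = 0
    funext j
    exact tor_posO n x hx j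
  | false =>
    change (2 * n) • negO x = 0
    funext j
    rw [Pi.smul_apply]
    simp only [negO]
    rw [smul_add, tor_posO n x hx j, two_half, add_zero]
    rfl

theorem nt_even (hC : StmC) (hD : StmD) (hE : StmEq) (m : ℕ) : NT (evenP hC hD hE m) := by
  intro i hr n hn
  cases i with
  | true =>
    let c : UnitAddTorus (Fin (m + 1)) := fun _ => ((1 / (2 * n) : ℝ) : UnitAddCircle)
    refine ⟨c, fun h => ?_⟩
    have h1 : n • pos c (Fin.castAdd (m + 1) 0) = 0 := congrFun h (Fin.castAdd (m + 1) 0)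
    simp only [pos, Fin.append_left] at h1
    exact half_ne hn h1
  | false =>
    have hr' : 0 < m := hr
    let c : UnitAddTorus (Fin m) := fun _ => ((1 / (2 * n) : ℝ) : UnitAddCircle)
    refine ⟨c, fun h => ?_⟩
    have h1 : n • neg c (Fin.castAdd (m + 1) (Fin.succ ⟨0, hr'⟩)) = 0 :=
      congrFun h (Fin.castAdd (m + 1) (Fin.succ ⟨0, hr'⟩))
    simp only [neg, Fin.append_left, Fin.cons_succ] at h1
    exact half_ne hn h1

theorem nt_odd (hB : StmB) (hE : StmEq) (m : ℕ) : NT (oddP hB hE m) := by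
  intro i hr n hn
  have hr' : 0 < m := by
    cases i with
    | true => exact hr
    | false => exact hr
  cases i with
  | true =>
    refine ⟨fun _ => ((1 / (2 * n) : ℝ) : UnitAddCircle), fun h => ?_⟩
    have h1 := congrFun h (Fin.succ (Fin.castAdd m ⟨0, hr'⟩))
    change n • posO _ (Fin.succ (Fin.castAdd m ⟨0, hr'⟩)) = 0 at h1
    simp only [posO, Fin.append_left, Fin.cons_succ] at h1
    exact half_ne hn h1
  | false =>
    refine ⟨fun _ => ((1 / (2 * n) : ℝ) : UnitAddCircle) + ((1 / 2 : ℝ) : UnitAddCircle),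
      fun h => ?_⟩
    have h1 := congrFun h (Fin.succ (Fin.castAdd m ⟨0, hr'⟩))
    change n • negO _ (Fin.succ (Fin.castAdd m ⟨0, hr'⟩)) = 0 at h1
    simp only [negO, posO, Fin.append_left, Fin.cons_succ] at h1
    rw [add_assoc, half_add_half', add_zero] at h1
    exact half_ne hn h1

theorem evenPlus_eq (hC : StmC) (hD : StmD) (hE : StmEq) (m : ℕ) :
    evenPlus m = toC (evenP hC hD hE m true) := by
  unfold evenPlus toC
  have h : (2 : ℝ) = 2 / ((evenP hC hD hE m true).κ : ℝ) := by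
    change (2 : ℝ) = 2 / ((1 : ℕ) : ℝ)
    norm_num
  rw [← h]
  rfl

theorem evenMinus_eq (hC : StmC) (hD : StmD) (hE : StmEq) (m : ℕ) :
    evenMinus m = toC (evenP hC hD hE m false) := by
  unfold evenMinus toC
  have h : (1 : ℝ) = 2 / ((evenP hC hD hE m false).κ : ℝ) := by
    change (1 : ℝ) = 2 / ((2 : ℕ) : ℝ)
    norm_num
  rw [← h]
  rfl

theorem oddPlus_eq (hB : StmB) (hE : StmEq) (m : ℕ) :
    oddPlus m = toC (oddP hB hE m true) := by
  unfold oddPlus toC
  have h : (1 : ℝ) = 2 / ((oddP hB hE m true).κ : ℝ) := by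
    change (1 : ℝ) = 2 / ((2 : ℕ) : ℝ)
    norm_num
  rw [← h]
  rfl

theorem oddMinus_eq (hB : StmB) (hE : StmEq) (m : ℕ) :
    oddMinus m = toC (oddP hB hE m false) := by
  unfold oddMinus toC
  have h : (1 : ℝ) = 2 / ((oddP hB hE m false).κ : ℝ) := by
    change (1 : ℝ) = 2 / ((2 : ℕ) : ℝ)
    norm_num
  rw [← h]
  rfl

end Bridge

open Pool.Agent.Y798.FC Pool.Agent.Y798.OG in
/-- **The Sato-Tate law for orthogonal groups from finitely many orders at `s = 1`.**  For every `N` there is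
`R` such that the following holds.

1. Nothing is supposed: for continuous class functions `f_1, …, f_m` on `O(N)` and `δ > 0` there are `η > 0`
   and `R'`, independent of the number field `K` and of the classes `t_v`, such that for all small `ε`

   * for some word `k` of length at most `R'` the number `x_k(ε) = log|L(k, 1 + ε)| / log(1/ε)` has a distance
     greater than `η` from the integers, or
   * for some word `k` of length at most `R` it has a distance greater than `η` from the multiplicity of the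
     trivial representation of `O(N)`, or
   * the Dirichlet averages of the `f_i(t_v)` at `ε` are, up to `δ`, the mean values of the `f_i` for the
     Sato-Tate law, possibly discretised on one or both of the components of `O(N)`.

2. Suppose that all `L(k, s)` have meromorphic continuations to neighbourhoods of `s = 1`, with zeros and poles
   of any orders.

   * If for the words `k` of length at most `R` the order of the pole at `s = 1` is the multiplicity of the
     trivial representation, then the classes have a law in the sense of Dirichlet density, and it is one of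
     the laws in 1; and this is also the law in the sense of natural density if all `L(k, s)` have
     meromorphic continuations to neighbourhoods of all points of the line `Re s = 1`.
   * The classes follow the Sato-Tate law in the sense of Dirichlet density if and only if these orders are
     right and the classes are not almost torsion on a component; and this is equivalent to the Sato-Tate law
     in the sense of natural density if all `L(k, s)` have meromorphic continuations to neighbourhoods of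
     all points of the line `Re s = 1`.

3. Suppose that the determinant of the class at `v` is the value of a quadratic character `χ` of the Galois group
   at a Frobenius element, and that the `L(k, s)` and their twists by irreducible Artin representations which
   are not trivial have meromorphic continuations to neighbourhoods of the points `1 + iτ`, with zeros and
   poles of any orders.  The following are equivalent:

   * for the words `k` of length at most `R` the order of `L(k, s)` at `s = 1` is the right one, and the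
     classes are not almost torsion on a component;
   * the Sato-Tate law in the sense of Dirichlet density;
   * the Sato-Tate law in the sense of natural density;
   * the joint law with the Frobenius elements: for every finite quotient `Q` of the Galois group over which
     `χ` is defined the pairs `(t_v, σ_v)` are equidistributed for the Haar measure of the group of the
     `(x, q)` in `O(N) × Q` with `det x = χ(q)`. -/
theorem result {N : ℕ} {C₁ C₂ : Component N} (hO : IsOrthogonal N C₁ C₂) :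
    ∃ R : ℕ,
      (∀ (m : ℕ) (f : Fin m → UnitAddTorus (Fin N) → ℝ), (∀ i, Continuous (f i)) →
        (∀ i, IsClassFunction (f i)) → ∀ δ : ℝ, 0 < δ →
        ∃ (η : ℝ) (R' : ℕ), 0 < η ∧ ∀ (K : Type) [Field K] [NumberField K]
          (t : HeightOneSpectrum (𝓞 K) → UnitAddTorus (Fin N)), AreClasses C₁ C₂ t →
          ∀ᶠ ε : ℝ in 𝓝[>] 0,
            (∃ (r : ℕ) (k : Fin r → ℕ), r ≤ R' ∧ (∀ j, k j ≤ N) ∧
              ∀ n : ℤ, η < |size (LWord t k) ε - n|) ∨
            (∃ (r : ℕ) (k : Fin r → ℕ), r ≤ R ∧ (∀ j, k j ≤ N) ∧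
              η < |size (LWord t k) ε - multiplicity C₁ C₂ k|) ∨
            ∃ L : (UnitAddTorus (Fin N) → ℝ) → ℝ, IsLaw C₁ C₂ L ∧
              ∀ i, |dirichletAvg (fun v => f i (t v)) ε - L (f i)| ≤ δ) ∧
      (∀ (K : Type) [Field K] [NumberField K]
        (t : HeightOneSpectrum (𝓞 K) → UnitAddTorus (Fin N)), AreClasses C₁ C₂ t →
        (∀ (r : ℕ) (k : Fin r → ℕ), (∀ j, k j ≤ N) → ContinuesTo (LWord t k) 1) →
        (RightOrders C₁ C₂ t R →
          ∃ L : (UnitAddTorus (Fin N) → ℝ) → ℝ, IsLaw C₁ C₂ L ∧ DirichletLaw t L ∧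
            ((∀ (r : ℕ) (k : Fin r → ℕ), (∀ j, k j ≤ N) → ∀ τ : ℝ,
              ContinuesTo (LWord t k) (1 + τ * Complex.I)) → NaturalLaw t L)) ∧
        (DirichletLaw t (satoTate C₁ C₂) ↔
          RightOrders C₁ C₂ t R ∧ ¬ AlmostTorsion t C₁ ∧ ¬ AlmostTorsion t C₂) ∧
        ((∀ (r : ℕ) (k : Fin r → ℕ), (∀ j, k j ≤ N) → ∀ τ : ℝ,
            ContinuesTo (LWord t k) (1 + τ * Complex.I)) →
          (NaturalLaw t (satoTate C₁ C₂) ↔
            RightOrders C₁ C₂ t R ∧ ¬ AlmostTorsion t C₁ ∧ ¬ AlmostTorsion t C₂))) ∧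
      ∀ (K : Type) [Field K] [NumberField K]
        (t : HeightOneSpectrum (𝓞 K) → UnitAddTorus (Fin N))
        (σ : HeightOneSpectrum (𝓞 K) → Gal(AlgebraicClosure K/K))
        (χ : Gal(AlgebraicClosure K/K) →* ℤˣ), HasDeterminant C₁ C₂ t σ χ →
        HasContinuations t σ →
        [RightOrders C₁ C₂ t R ∧ ¬ AlmostTorsion t C₁ ∧ ¬ AlmostTorsion t C₂,
          DirichletLaw t (satoTate C₁ C₂),
          NaturalLaw t (satoTate C₁ C₂),
          JointLaw C₁ C₂ t σ χ].TFAE := by
  have hdiv : StmDiv := Pool.Agent.Y495.FC.Div.t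
  have hstr : StmStr := Pool.Agent.H70FC.t
  have him : StmIm := Pool.Agent.Y681.FC.t
  have htaub : StmTaub := Pool.Agent.Y37.FC.t_Taub
  have hC : StmC := Pool.Agent.Y674.FC.t
  have hirr : StmIrr := Pool.Agent.Y495.FC.t
  have hE : StmEq := Pool.Agent.Y737.OG.t
  have hD : StmD := Pool.Agent.Y657.OG.t
  have hB : StmB := Pool.Agent.Y629.OG.t
  have hA : StmAlg := Pool.Agent.Y960.OG.Alg.t
  have hA' : StmAlgB := Pool.Agent.Y574.OG.t
  have hlaw : StmLaw := Pool.Agent.Y86.OG.t hdiv hstr hirr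
  have huniq : StmUniq := Pool.Agent.Y529.OG.t_UNIQ
  have hmn : StmMn := Pool.Agent.Y412.OG.t huniq
  have hrig : StmRig := Pool.Agent.Y67.OG.t
  have hfej : StmFej := Pool.Agent.Y798.OG.Fej.t
  have hfun : StmFun2 := Pool.Agent.Y434.OG.t
  have hvan : StmVan := Pool.Agent.Y445.OG.t hdiv hfej hrig hfun
  have hfl : StmFL := Pool.Agent.Y67.OGF.t
  have hblk : StmBlk := Pool.Agent.Y798.FC.Blk.t
  have hfix : StmFix := Pool.Agent.Y188.FC.t
  have hfv : StmFV := Pool.Agent.Y448.FC2.t
  have horb : StmOrb := Pool.Agent.Y484.FC2.t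
  have hsurE : StmSurE := Pool.Agent.Y590.OG.sure
  have hsurO : StmSurO := Pool.Agent.Y590.OG.suro
  have hdet : StmDet := Pool.Agent.Y67.OGD.t
  have htr : StmTransW := Pool.Agent.Y67.OGT.t
  have hdiff : StmDiff := Pool.Agent.Y722.OG.t
  have hfunw : StmFunW := Pool.Agent.Y798.OG.FunW.t
  have hcomp : StmComp := Pool.Agent.Y876.OG.t hfunw hfix
  have hcl : StmCl := Pool.Agent.Y309.OG.t
  have hmix : StmMixP := mixP hC
  have hone : StmOneP := Pool.Agent.Y968.OG.t hcomp hdiff htr hcl hfv horb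
  cases hO with
  | even m =>
    exact final2 (P := evenP hC hD hE m) him htaub hC hlaw huniq hvan hmn hfl
      (alg_even hC hD hE hA m) (tor_even hC hD hE m) (nt_even hC hD hE m) hone hblk hmix
      (sur_even hC hD hE hsurE m) (det_even hC hD hE hdet m) (mass_even hC hD hE m)
      (evenPlus_eq hC hD hE m) (evenMinus_eq hC hD hE m)
  | odd m =>
    exact final2 (P := oddP hB hE m) him htaub hC hlaw huniq hvan hmn hfl
      (alg_odd hB hE hA' m) (tor_odd hB hE m) (nt_odd hB hE m) hone hblk hmix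
      (sur_odd hB hE hsurO m) (det_odd hB hE hdet m) (mass_odd hB hE m)
      (oddPlus_eq hB hE m) (oddMinus_eq hB hE m)

end Pool.Agent.Results.MP_32ceeb_nt.FiniteOrderCriterion
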